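import Pool.Agent.Y627.PT.Stm
import Pool.Agent.TH693.QQ.QE2

set_option autoImplicit false

/-!
# Polynomials with coefficients of bounded degree: basic facts
-/

namespace Pool.Agent.Y627.PT

open PowerSeries Pool.Agent.TH693.PP Pool.Agent.TH693.QQ Pool.Agent.H397R2.PP

theorem Bd.mono {h k h' k' : ℕ} {G : Polynomial F} (hG : Bd h k G) (h1 : h ≤ h') (h2 : k ≤ k') :
    Bd h' k' G := ⟨hG.1.trans h2, fun i => (hG.2 i).trans h1⟩

theorem In.mono {D : S} {h k h' k' : ℕ} {s : S} (hs : In D h k s) (h1 : h ≤ h') (h2 : k ≤ k') :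
    In D h' k' s := by
  obtain ⟨G, hG, rfl⟩ := hs
  exact ⟨G, hG.mono h1 h2, rfl⟩

theorem Nc.mono {D : S} {m h k m' h' k' : ℕ} {l : S} (hl : Nc D m h k l) (h0 : m ≤ m')
    (h1 : h ≤ h') (h2 : k ≤ k') : Nc D m' h' k' l := by
  obtain ⟨p, hp, hd, hc, he⟩ := hl
  exact ⟨p, hp, hd.trans h0, fun i => (hc i).mono h1 h2, he⟩

theorem in_io (D : S) (h : ℕ) (f : F) (hf : f.natDegree ≤ h) : In D h 0 (io f) := by
  refine ⟨Polynomial.C f, ⟨by rw [Polynomial.natDegree_C], fun i => ?_⟩, QE2.evp_C D f⟩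
  rw [Polynomial.coeff_C]
  split_ifs
  · exact hf
  · rw [Polynomial.natDegree_zero]; exact Nat.zero_le _

theorem evp_eq (D : S) (G : Polynomial F) : evp D G = (G.map io).eval D := by
  rw [Polynomial.eval_map]; rfl

/-- roots of polynomials over `F_2[X]` -/
theorem nc_root (D : S) {Q : Polynomial F} (hQ : Q ≠ 0) {h d : ℕ} (hb : Bd h d Q) {a : S}
    (ha : evp a Q = 0) : Nc D d h 0 a := by
  refine ⟨Q.map io, (Polynomial.map_ne_zero_iff QE2.io_inj).2 hQ,
    Polynomial.natDegree_map_le.trans hb.1, fun i => ?_, ?_⟩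
  · rw [Polynomial.coeff_map]
    exact in_io D h _ (hb.2 i)
  · rw [← evp_eq, ha]

/-- elements of `F_2[X]` -/
theorem nc_io (D : S) (h : ℕ) (f : F) (hf : f.natDegree ≤ h) : Nc D 1 h 0 (io f) := by
  refine nc_root D (Q := Polynomial.X - Polynomial.C f) (Polynomial.X_sub_C_ne_zero f)
    ⟨(Polynomial.natDegree_X_sub_C f).le, fun i => ?_⟩ ?_
  · rw [Polynomial.coeff_sub, Polynomial.coeff_X, Polynomial.coeff_C]
    refine (Polynomial.natDegree_sub_le _ _).trans (max_le ?_ ?_)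
    · split_ifs <;> simp
    · split_ifs
      · exact hf
      · simp
  · rw [map_sub, QE2.evp_X, QE2.evp_C, sub_self]

/-- Liouville -/
theorem lio {D : S} {m h k : ℕ} {l : S} (hN : Nc D m h k l) (hl : l ≠ 0) :
    ∃ s, In D h k s ∧ s ≠ 0 ∧ l ∣ s := by
  obtain ⟨p, hp, -, hc, he⟩ := hN
  obtain ⟨q, hq⟩ := (Polynomial.X_pow_dvd_iff (f := p) (n := p.natTrailingDegree)).2
    (fun d hd => Polynomial.coeff_eq_zero_of_lt_natTrailingDegree hd)
  have h0 : p.coeff p.natTrailingDegree = q.coeff 0 := by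
    have := Polynomial.coeff_X_pow_mul q p.natTrailingDegree 0
    rwa [zero_add, ← hq] at this
  refine ⟨_, hc p.natTrailingDegree, ?_, ?_⟩
  · rw [← Polynomial.trailingCoeff]
    exact Polynomial.trailingCoeff_nonzero_iff_nonzero.2 hp
  · rw [h0]
    have h1 : q.eval l = 0 := by
      have he' := congrArg (Polynomial.eval l) hq
      rw [Polynomial.eval_mul, Polynomial.eval_pow, Polynomial.eval_X, he] at he'
      replace he := he'.symm
      exact (mul_eq_zero.1 he).resolve_left (pow_ne_zero _ hl)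
    have h2 := Polynomial.divX_mul_X_add q
    rw [← h2, Polynomial.eval_add, Polynomial.eval_mul, Polynomial.eval_X, Polynomial.eval_C] at h1
    exact ⟨q.divX.eval l, by linear_combination h1 - q.divX.eval l * l * two_zero⟩

/-- a polynomial divisible by `X ^ n` -/
theorem deg_of_dvd {f : F} (hf : f ≠ 0) {n : ℕ} (h : (X : S) ^ n ∣ io f) : n ≤ f.natDegree := by
  by_contra hcon
  rw [PowerSeries.X_pow_dvd_iff] at h
  have := h f.natDegree (by omega)
  change coeff f.natDegree (f : S) = 0 at this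
  rw [Polynomial.coeff_coe] at this
  exact hf (Polynomial.leadingCoeff_eq_zero.1 this)

theorem in_zero {D : S} {h : ℕ} {s : S} (hs : In D h 0 s) (h0 : s ≠ 0) {n : ℕ}
    (hn : (X : S) ^ n ∣ s) : n ≤ h := by
  obtain ⟨G, hG, rfl⟩ := hs
  rw [Polynomial.eq_C_of_natDegree_le_zero hG.1, QE2.evp_C] at h0 hn
  refine (deg_of_dvd ?_ hn).trans (hG.2 0)
  intro h1
  exact h0 (by rw [h1, map_zero])

theorem fac {f : S} (hf : f ≠ 0) : ∃ (n : ℕ) (v : S), constantCoeff v ≠ 0 ∧ f = X ^ n * v :=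
  ⟨f.order.toNat, f.divXPowOrder, fun h => hf (PowerSeries.constantCoeff_divXPowOrder_eq_zero_iff.1 h),
    PowerSeries.X_pow_order_mul_divXPowOrder.symm⟩

theorem le_of_fac {n N : ℕ} {v : S} (hv : constantCoeff v ≠ 0) (h : (X : S) ^ N ∣ X ^ n * v) :
    N ≤ n := by
  by_contra hcon
  rw [PowerSeries.X_pow_dvd_iff] at h
  have := h n (by omega)
  have h2 := PowerSeries.coeff_X_pow_mul v n 0
  rw [zero_add] at h2
  rw [h2, coeff_zero_eq_constantCoeff_apply] at this
  exact hv this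

end Pool.Agent.Y627.PT
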