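import Pool.Agent.Y627.PT.Main

set_option autoImplicit false

/-!
# Eta quotients
-/

namespace Pool.Agent.Y627.PT

open PowerSeries Pool.Agent.TH693.PP Pool.Agent.TH693.QQ Pool.Agent.H397R2.PP

/-- `∏_{i ≥ 1} (1 - q ^ (d i))`: Mathlib's series `pentagonalSeries ℤ = ∏_{i ≥ 1} (1 - q ^ i)` in the
variable `q ^ d` -/
noncomputable def eul (d : ℕ) : ℤ⟦X⟧ :=
  PowerSeries.mk fun n => if d ∣ n then coeff (n / d) (pentagonalSeries ℤ) else 0

theorem map_pent : (pentagonalSeries ℤ).map (Int.castRingHom (ZMod 2)) = E := by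
  have h1 := congrArg (PowerSeries.map (Int.castRingHom (ZMod 2)))
    (Pool.Agent.H397R2.PP.mk_card_mul_pentagonalSeries ℤ)
  rw [map_mul, map_one] at h1
  have h2 : PowerSeries.map (Int.castRingHom (ZMod 2))
      (PowerSeries.mk fun n => (Fintype.card (Nat.Partition n) : ℤ)) = P := by
    ext n
    rw [PowerSeries.coeff_map, coeff_mk, P, coeff_mk]
    simp
  rw [h2] at h1
  have h3 := P_mul_E
  calc (pentagonalSeries ℤ).map (Int.castRingHom (ZMod 2)) =
      (P * E) * (pentagonalSeries ℤ).map (Int.castRingHom (ZMod 2)) := by rw [h3, one_mul]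
    _ = E * (P * (pentagonalSeries ℤ).map (Int.castRingHom (ZMod 2))) := by ring
    _ = E := by rw [h1, mul_one]

theorem map_eul {d : ℕ} (hd : d ≠ 0) : (eul d).map (Int.castRingHom (ZMod 2)) = ex d hd E := by
  ext n
  unfold ex eul
  rw [PowerSeries.coeff_map, coeff_mk, PowerSeries.coeff_expand]
  split_ifs
  · rw [← map_pent, PowerSeries.coeff_map]
  · rw [map_zero]

theorem sec_eta (D : Finset ℕ) (u v : ℕ → ℕ) (hD : 0 ∉ D) (F : ℤ⟦X⟧)
    (hF : F * ∏ d ∈ D, eul d ^ v d = ∏ d ∈ D, eul d ^ u d) :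
    Sec (F.map (Int.castRingHom (ZMod 2))) (-(∑ d ∈ D, (d : ℤ) * ((u d : ℤ) - v d))) := by
  classical
  set G := F.map (Int.castRingHom (ZMod 2)) with hG
  have h1 := congrArg (PowerSeries.map (Int.castRingHom (ZMod 2))) hF
  rw [map_mul, map_prod, map_prod, ← hG] at h1
  have hne : ∀ d ∈ D, d ≠ 0 := fun d hd h => hD (h ▸ hd)
  -- total version of `ex`
  set E' : ℕ → S := fun d => (eul d).map (Int.castRingHom (ZMod 2)) with hE'
  set P' : ℕ → S := fun d => if h : d = 0 then 1 else ex d h P with hP'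
  have hEP : ∀ d ∈ D, E' d * P' d = 1 := by
    intro d hd
    rw [hE', hP']
    simp only
    rw [dif_neg (hne d hd), map_eul (hne d hd), ← map_mul, mul_comm, P_mul_E, map_one]
  have h2 : G = (∏ d ∈ D, E' d ^ u d) * ∏ d ∈ D, P' d ^ v d := by
    have h3 : (∏ d ∈ D, E' d ^ v d) * ∏ d ∈ D, P' d ^ v d = 1 := by
      rw [← Finset.prod_mul_distrib]
      refine Finset.prod_eq_one fun d hd => ?_
      rw [← mul_pow, hEP d hd, one_pow]
    have h4 : G * ∏ d ∈ D, E' d ^ v d = ∏ d ∈ D, E' d ^ u d := by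
      refine Eq.trans ?_ (h1.trans ?_)
      · congr 1
        exact Finset.prod_congr rfl fun d _ => (map_pow _ _ _).symm
      · exact Finset.prod_congr rfl fun d _ => map_pow _ _ _
    calc G = G * ((∏ d ∈ D, E' d ^ v d) * ∏ d ∈ D, P' d ^ v d) := by rw [h3, mul_one]
      _ = (G * ∏ d ∈ D, E' d ^ v d) * ∏ d ∈ D, P' d ^ v d := by ring
      _ = _ := by rw [h4]
  rw [h2]
  have h5 : Sec (∏ d ∈ D, E' d ^ u d) (∑ d ∈ D, ((u d : ℕ) : ℤ) * ((d : ℤ) * (-1))) :=
    sec_prod D _ _ fun d hd => by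
      refine sec_pow ?_ (u d)
      rw [hE']
      simp only
      rw [map_eul (hne d hd)]
      exact sec_ex sec_E (hne d hd)
  have h6 : Sec (∏ d ∈ D, P' d ^ v d) (∑ d ∈ D, ((v d : ℕ) : ℤ) * ((d : ℤ) * 1)) :=
    sec_prod D _ _ fun d hd => by
      refine sec_pow ?_ (v d)
      rw [hP']
      simp only
      rw [dif_neg (hne d hd)]
      exact sec_ex sec_P (hne d hd)
  have h7 := sec_mul h5 h6
  convert h7 using 1
  rw [← Finset.sum_add_distrib, ← Finset.sum_neg_distrib]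
  refine Finset.sum_congr rfl fun d _ => ?_
  ring

theorem proj_ne_of_odd {F : ℤ⟦X⟧} {M r N : ℕ} (h1 : N ≡ r [MOD M]) (h2 : Odd (coeff N F)) :
    proj M r (F.map (Int.castRingHom (ZMod 2))) ≠ 0 := by
  intro h0
  have h3 := congrArg (coeff N) h0
  rw [proj, coeff_mk, map_zero, if_pos (show N % M = r % M from h1), PowerSeries.coeff_map] at h3
  have h4 : ((coeff N F : ℤ) : ZMod 2) = 0 := h3
  rw [ZMod.intCast_eq_zero_iff_even] at h4
  exact (Int.not_even_iff_odd.2 h2) h4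

end Pool.Agent.Y627.PT
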