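import Pool.Agent.Y627.PT.Stm2
import Pool.Agent.Y517.PT.Lin

set_option autoImplicit false

/-!
# A linear relation splits according to the powers of `X ^ (1 / 24)` (after helper517's `Lin`)
-/

namespace Pool.Agent.Y627.PT

open PowerSeries Pool.Agent.TH693.PP Pool.Agent.TH693.QQ Pool.Agent.H397R2.PP Pool.Agent.Y517.PT

theorem lin0 : S_LIN0 := by
  classical
  intro hDb J _ g t hAL a b hrel E
  obtain ⟨xi, hxi⟩ : ∃ xi : Om, xi ^ 24 = e (T5.jj X) :=
    IsAlgClosed.exists_pow_nat_eq (e (T5.jj X)) (by norm_num)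
  set d : Om := e (T5.jj Db) with hd
  have hejj : Function.Injective (fun s : S => e (T5.jj s)) := by
    intro s s' h
    exact T5.jj_inj (e.toRingHom.injective h)
  have hX : e (T5.jj X) ∉ QE2.cl (ZMod 2) {d} := fun h => X_notMem hDb (cl_comap e h)
  have hxiK : xi ∉ QE2.cl (ZMod 2) {d} := fun h => hX (hxi ▸ QE2.pow_mem' h 24)
  have hxi0 : xi ≠ 0 := by
    rintro rfl
    rw [zero_pow (by norm_num)] at hxi
    have h1 : T5.jj X = 0 := (map_eq_zero e.toRingHom).1 hxi.symm
    rw [map_eq_zero_iff T5.jj T5.jj_inj] at h1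
    exact PowerSeries.X_ne_zero h1
  set de : J → Om := fun j => e (T5.jj (g j)) / xi ^ t j with hde
  have hdeK : ∀ j, de j ∈ QE2.cl (ZMod 2) {d} := by
    intro j
    apply QE2.of_pow_mem (n := 24) (by norm_num)
    have h1 := cl_map e (T5.mem_of_AL (hAL j))
    have h2 : de j ^ 24 = e (algebraMap Sk Lk (ik (g j)) ^ 24 /
        algebraMap Sk Lk X ^ t j) := by
      rw [map_div₀, map_pow, map_pow, hde]
      simp only
      rw [div_pow, ← pow_mul, mul_comm (t j) 24, pow_mul, hxi, T5.jj_X]
      rfl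
    rw [h2]
    exact h1
  have hdex : ∀ j, de j * xi ^ t j = e (T5.jj (g j)) := by
    intro j
    rw [hde]
    exact div_mul_cancel₀ _ (pow_ne_zero _ hxi0)
  -- the polynomial
  set q : F → Polynomial Om := fun f => Polynomial.expand Om 24 (f.map (algebraMap (ZMod 2) Om))
    with hq
  set Q : Polynomial Om :=
    ∑ j, Polynomial.C (de j) * (Polynomial.X ^ t j * q (a j)) + q b with hQ
  have hqK : ∀ (f : F) (n : ℕ), (q f).coeff n ∈ Kc (ZMod 2) d := by
    intro f n
    rw [hq]
    simp only
    rw [Polynomial.coeff_expand (by norm_num)]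
    split_ifs with h
    · rw [Polynomial.coeff_map]
      have h1 : algebraMap (ZMod 2) Om (f.coeff (n / 24)) =
        algebraMap (Algebra.adjoin (ZMod 2) {d}) Om
          (algebraMap (ZMod 2) (Algebra.adjoin (ZMod 2) {d}) (f.coeff (n / 24))) := rfl
      rw [h1]
      exact Subalgebra.algebraMap_mem _ _
    · exact Subalgebra.zero_mem _
  have hQK : ∀ n, Q.coeff n ∈ QE2.cl (ZMod 2) {d} := by
    intro n
    rw [← mem_Kc, hQ, Polynomial.coeff_add, Polynomial.finsetSum_coeff]
    refine Subalgebra.add_mem _ (Subalgebra.sum_mem _ fun j _ => ?_) (hqK b n)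
    rw [Polynomial.coeff_C_mul, Polynomial.coeff_X_pow_mul']
    refine Subalgebra.mul_mem _ (mem_Kc.2 (hdeK j)) ?_
    split_ifs
    · exact hqK _ _
    · exact Subalgebra.zero_mem _
  have hQ0 : Q = 0 := by
    apply eq_zero_of_root hxiK Q hQK
    rw [hQ, Polynomial.eval_add, Polynomial.eval_finsetSum]
    have h1 : ∀ j, (Polynomial.C (de j) * (Polynomial.X ^ t j * q (a j))).eval xi =
        e (T5.jj (io (a j) * g j)) := by
      intro j
      rw [Polynomial.eval_mul, Polynomial.eval_mul, Polynomial.eval_C, Polynomial.eval_pow,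
        Polynomial.eval_X, ← mul_assoc, hdex, map_mul, map_mul, mul_comm]
      congr 1
      exact (eval_io xi hxi (a j)).symm
    rw [Finset.sum_congr rfl (fun j _ => h1 j)]
    have h2 : (q b).eval xi = e (T5.jj (io b)) := (eval_io xi hxi b).symm
    rw [h2, ← map_sum, ← map_sum, ← map_add, ← map_add, hrel, map_zero, map_zero]
  -- the coefficients
  have hc := congrArg (fun R : Polynomial Om => R.coeff E) hQ0
  simp only [Polynomial.coeff_zero] at hc
  rw [hQ, Polynomial.coeff_add, Polynomial.finsetSum_coeff] at hc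
  apply hejj
  simp only
  rw [map_add, map_add, map_sum, map_sum, map_zero, map_zero]
  have hmon : ∀ (n : ℕ) (c : ZMod 2), e (T5.jj (io (Polynomial.monomial n c))) =
      algebraMap (ZMod 2) Om c * xi ^ (24 * n) := by
    intro n c
    rw [← Polynomial.C_mul_X_pow_eq_monomial, map_mul, map_pow, QE2.io_C, QE2.io_X, map_mul,
      map_mul, map_pow, map_pow, T5.jj.commutes, e.commutes, pow_mul, hxi]
  have h1 : ∀ j, e (T5.jj (if t j ≤ E ∧ 24 ∣ E - t j then
      io (Polynomial.monomial ((E - t j) / 24) ((a j).coeff ((E - t j) / 24))) * g j else 0)) =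
      (Polynomial.C (de j) * (Polynomial.X ^ t j * q (a j))).coeff E * xi ^ E := by
    intro j
    rw [Polynomial.coeff_C_mul, Polynomial.coeff_X_pow_mul']
    by_cases h2 : t j ≤ E
    · rw [if_pos h2, hq]
      simp only
      rw [Polynomial.coeff_expand (by norm_num)]
      by_cases h3 : 24 ∣ E - t j
      · obtain ⟨k, hk⟩ := h3
        rw [if_pos ⟨h2, ⟨k, hk⟩⟩, if_pos ⟨k, hk⟩, hk, Nat.mul_div_cancel_left k (by norm_num),
          Polynomial.coeff_map, map_mul, map_mul, hmon, ← hdex]
        have hE : E = 24 * k + t j := by omega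
        rw [hE, pow_add]
        ring
      · rw [if_neg (fun h4 => h3 h4.2), if_neg h3, map_zero, map_zero, mul_zero, zero_mul]
    · rw [if_neg (fun h4 => h2 h4.1), if_neg h2, map_zero, map_zero, mul_zero, zero_mul]
  have h2 : e (T5.jj (if 24 ∣ E then io (Polynomial.monomial (E / 24) (b.coeff (E / 24))) else 0)) =
      (q b).coeff E * xi ^ E := by
    rw [hq]
    simp only
    rw [Polynomial.coeff_expand (by norm_num)]
    by_cases h3 : 24 ∣ E
    · rw [if_pos h3, if_pos h3, hmon, Polynomial.coeff_map, Nat.mul_div_cancel' h3]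
    · rw [if_neg h3, if_neg h3, map_zero, map_zero, zero_mul]
  rw [Finset.sum_congr rfl (fun j _ => h1 j), h2, ← Finset.sum_mul, ← add_mul, hc, zero_mul]

end Pool.Agent.Y627.PT
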