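import Pool.Agent.Y627.PT.SecE
import Pool.Agent.Y627.PT.Lin0

set_option autoImplicit false

/-!
# Dilates and progressions for functions with good sections
-/

namespace Pool.Agent.Y627.PT

open PowerSeries Pool.Agent.TH693.PP Pool.Agent.TH693.QQ Pool.Agent.H397R2.PP

/-- the function `∑ g_(m n + i) X ^ n` -/
noncomputable def fn (g : S) (m i : ℕ) : S := PowerSeries.mk fun n => coeff (m * n + i) g

/-- the relation between `fn` and the sections -/
theorem fn_rel (g : S) (m i e ρ M B : ℕ) (hB : B = e * m) (hB0 : B ≠ 0) (he : e ≠ 0) (hi : i < m) :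
    X ^ (i * e) * ex B hB0 (proj M ρ (fn g m i)) =
      ex e he (proj (m * M) (m * ρ + i) g) := by
  ext n
  unfold ex
  rw [PowerSeries.coeff_X_pow_mul', PowerSeries.coeff_expand, PowerSeries.coeff_expand]
  have hm : 0 < m := by omega
  have he' : 0 < e := Nat.pos_of_ne_zero he
  by_cases h1 : e ∣ n
  · obtain ⟨N, rfl⟩ := h1
    rw [if_pos (Dvd.intro N rfl), Nat.mul_div_cancel_left N he']
    by_cases h2 : i ≤ N
    · obtain ⟨N', rfl⟩ : ∃ N', N = i + N' := ⟨N - i, by omega⟩
      rw [if_pos (by rw [mul_comm i e]; exact Nat.mul_le_mul_left _ h2)]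
      have h3 : e * (i + N') - i * e = e * N' := by
        rw [mul_add, mul_comm i e, Nat.add_sub_cancel_left]
      rw [h3, hB]
      by_cases h4 : m ∣ N'
      · obtain ⟨k, rfl⟩ := h4
        have hemk : e * (m * k) = e * m * k := by ring
        have hpos : 0 < e * m := by positivity
        have hdiv : e * m * k / (e * m) = k := Nat.mul_div_cancel_left k hpos
        rw [hemk, if_pos (Dvd.intro k rfl), hdiv]
        unfold proj fn
        rw [coeff_mk, coeff_mk, coeff_mk]
        have h5 : k % M = ρ % M ↔ (i + m * k) % (m * M) = (m * ρ + i) % (m * M) := by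
          constructor
          · intro h6
            have h7 : m * k ≡ m * ρ [MOD m * M] := Nat.ModEq.mul_left' m h6
            have h8 := Nat.ModEq.add_left i h7
            rw [add_comm (m * ρ) i]
            exact h8
          · intro h6
            have h7 : i + m * k ≡ i + m * ρ [MOD m * M] := by
              rw [add_comm i (m * ρ)]; exact h6
            have h8 := Nat.ModEq.add_left_cancel' i h7
            exact Nat.ModEq.mul_left_cancel' hm.ne' h8
        by_cases h6 : k % M = ρ % M
        · rw [if_pos h6, if_pos (h5.1 h6), add_comm i]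
        · rw [if_neg h6, if_neg (fun h7 => h6 (h5.2 h7))]
      · rw [if_neg]
        · unfold proj
          rw [coeff_mk, if_neg]
          intro h5
          apply h4
          have h6 : i + N' ≡ m * ρ + i [MOD m * M] := h5
          have h7 : i + N' ≡ i + m * ρ [MOD m] := by
            rw [add_comm i (m * ρ)]
            exact Nat.ModEq.of_mul_right M h6
          have h8 : N' ≡ m * ρ [MOD m] := Nat.ModEq.add_left_cancel' i h7
          have h9 : m * ρ ≡ 0 [MOD m] := (Nat.modEq_zero_iff_dvd).2 (Dvd.intro ρ rfl)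
          exact (Nat.modEq_zero_iff_dvd).1 (h8.trans h9)
        · rintro ⟨k, hk⟩
          apply h4
          refine ⟨k, ?_⟩
          have : e * N' = e * (m * k) := by rw [hk]; ring
          exact Nat.eq_of_mul_eq_mul_left he' this
    · have h3 : ¬ i * e ≤ e * N := by
        rw [mul_comm i e]
        intro h4
        exact h2 (Nat.le_of_mul_le_mul_left h4 he')
      rw [if_neg h3]
      unfold proj
      rw [coeff_mk, if_neg]
      intro h4
      -- `N < i`, `N ≡ m ρ + i` modulo `m M`
      have h5 : N ≡ m * ρ + i [MOD m * M] := h4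
      have h6 : N ≡ m * ρ + i [MOD m] := Nat.ModEq.of_mul_right M h5
      have h7 : m * ρ + i ≡ 0 + i [MOD m] :=
        Nat.ModEq.add_right i ((Nat.modEq_zero_iff_dvd).2 (Dvd.intro ρ rfl))
      have h8 : N % m = i % m := by
        have := h6.trans h7
        rwa [zero_add] at this
      rw [Nat.mod_eq_of_lt (by omega), Nat.mod_eq_of_lt hi] at h8
      omega
  · rw [if_neg h1]
    split_ifs with h2 h3
    · exfalso
      apply h1
      obtain ⟨k, hk⟩ := h3
      have h4 : n = i * e + B * k := by omega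
      rw [h4, hB]
      exact ⟨i + m * k, by ring⟩
    · rfl
    · rfl

theorem ex_io (B : ℕ) (hB : B ≠ 0) (f : F) : ex B hB (io f) = io (Polynomial.expand (ZMod 2) B f) := by
  induction f using Polynomial.induction_on with
  | C a => rw [Polynomial.expand_C, QE2.io_C, AlgHom.commutes]
  | add p q hp hq => rw [map_add, map_add, map_add, map_add, hp, hq]
  | monomial n a _ =>
    have hX : ex B hB X = X ^ B := PowerSeries.expand_X B hB
    simp only [map_mul, map_pow, QE2.io_X, QE2.io_C, hX, Polynomial.expand_C, Polynomial.expand_X,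
      AlgHom.commutes]

theorem ex_inj (B : ℕ) (hB : B ≠ 0) : Function.Injective (ex B hB) := by
  intro f g h
  ext n
  have h1 := congrArg (coeff (B * n)) h
  unfold ex at h1
  rwa [PowerSeries.coeff_expand_mul, PowerSeries.coeff_expand_mul] at h1

theorem mem_of_az {f : Lk} {s : ℤ} (h : AZ f s) : f ∈ QE2.cl (ZMod 2) {T5.jj X, T5.jj Db} := by
  have h1 : f ^ 24 * xx ^ (-s) ∈ QE2.cl (ZMod 2) {T5.jj X, T5.jj Db} := QE2.cl_mono (by simp) h
  have h2 : ∀ z : ℤ, xx ^ z ∈ QE2.cl (ZMod 2) {T5.jj X, T5.jj Db} := by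
    intro z
    have h3 : xx ∈ QE2.cl (ZMod 2) {T5.jj X, T5.jj Db} := QE2.self_mem (by simp)
    rcases Int.eq_nat_or_neg z with ⟨n, rfl | rfl⟩
    · rw [zpow_natCast]
      exact QE2.pow_mem' h3 n
    · rw [zpow_neg, zpow_natCast]
      exact QE2.inv_mem' (QE2.pow_mem' h3 n)
  apply QE2.of_pow_mem (n := 24) (by norm_num)
  have h4 := QE2.mul_mem' h1 (h2 s)
  rwa [mul_assoc, ← zpow_add₀ xx_ne, neg_add_cancel, zpow_zero, mul_one] at h4

theorem lfor_gen {J : Type} [Fintype J] (G : J → S) (τ : J → ℤ) (hG : ∀ j, Sec (G j) (τ j))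
    (m i : J → ℕ) (B M : ℕ) (hB0 : B ≠ 0) (hm : ∀ j, m j ∣ B) (hi : ∀ j, i j < m j) (hM : 0 < M) :
    LFor (fun j : J × Fin M => proj M j.2 (fn (G j.1) (m j.1) (i j.1))) := by
  have hX : ex B hB0 X = X ^ B := PowerSeries.expand_X B hB0
  have h1 := lf Pool.Agent.Y38.PT6.clo mtDb
    (fun j : J × Fin M => ex B hB0 (proj M j.2 (fn (G j.1) (m j.1) (i j.1)))) (by
      intro j
      obtain ⟨e, he⟩ := hm j.1
      have he0 : e ≠ 0 := by rintro rfl; exact hB0 (by rw [he, mul_zero])
      have h2 := fn_rel (G j.1) (m j.1) (i j.1) e j.2 M B (by rw [he]; ring) hB0 he0 (hi j.1)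
      have h3 : AZ (T5.jj (ex e he0 (proj (m j.1 * M) (m j.1 * j.2 + i j.1) (G j.1))))
          (e * τ j.1) :=
        az_ex he0 (hG j.1 _ _ (Nat.mul_pos (by have := hi j.1; omega) hM))
      have h4 := mem_of_az h3
      rw [← h2, map_mul, map_pow] at h4
      apply T5.algOver_of_mem
      have h5 : T5.jj X ^ (i j.1 * e) ∈ QE2.cl (ZMod 2) {T5.jj X, T5.jj Db} :=
        QE2.pow_mem' (QE2.self_mem (by simp)) _
      have h6 := QE2.mul_mem' h4 (QE2.inv_mem' h5)
      rwa [mul_comm, ← mul_assoc, inv_mul_cancel₀ (pow_ne_zero _ xx_ne), one_mul] at h6)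
  obtain ⟨C, hC⟩ := h1
  refine ⟨C, fun h c d hc hd hne N hN => ?_⟩
  have h2 : ∑ j : J × Fin M, io (Polynomial.expand (ZMod 2) B (c j)) *
      ex B hB0 (proj M j.2 (fn (G j.1) (m j.1) (i j.1))) + io (Polynomial.expand (ZMod 2) B d) =
      ex B hB0 (∑ j : J × Fin M, io (c j) * proj M j.2 (fn (G j.1) (m j.1) (i j.1)) + io d) := by
    rw [map_add, map_sum, ex_io]
    congr 1
    refine Finset.sum_congr rfl fun j _ => ?_
    rw [map_mul, ex_io]
  have h3 := hC (B * h) (fun j => Polynomial.expand (ZMod 2) B (c j))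
    (Polynomial.expand (ZMod 2) B d)
    (fun j => by rw [Polynomial.natDegree_expand, mul_comm]; exact Nat.mul_le_mul_left _ (hc j))
    (by rw [Polynomial.natDegree_expand, mul_comm]; exact Nat.mul_le_mul_left _ hd)
    (by
      rw [h2]
      intro h4
      exact hne (ex_inj B hB0 (h4.trans (map_zero _).symm)))
    (B * N) (by
      rw [h2]
      obtain ⟨w, hw⟩ := hN
      refine ⟨ex B hB0 w, ?_⟩
      rw [pow_mul, ← hX, ← map_pow, ← map_mul]
      exact congrArg _ hw)
  have hBp : 0 < B := Nat.pos_of_ne_zero hB0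
  have h5 : B * N ≤ B * (C * (h + 1)) := by
    refine h3.trans ?_
    have : C * (B * h + 1) ≤ C * (B * h + B) := Nat.mul_le_mul_left _ (by omega)
    refine this.trans (le_of_eq ?_)
    ring
  exact Nat.le_of_mul_le_mul_left h5 hBp

theorem lin_gen {J : Type} [Fintype J] (G : J → S) (τ : J → ℤ) (hG : ∀ j, Sec (G j) (τ j))
    (m i : J → ℕ) (B M : ℕ) (hB0 : B ≠ 0) (hm : ∀ j, m j ∣ B) (hi : ∀ j, i j < m j) (hM : 0 < M)
    (h24 : ∀ j, ¬ (24 : ℤ) ∣ τ j)
    (hexp : ∀ j j', (24 * m j * m j' : ℤ) ∣ m j' * (τ j - 24 * i j) - m j * (τ j' - 24 * i j') →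
      j = j')
    (c : J × Fin M → F) (d : F)
    (hrel : ∑ j : J × Fin M, io (c j) * proj M j.2 (fn (G j.1) (m j.1) (i j.1)) + io d = 0)
    (j0 : J × Fin M) (hj0 : proj M j0.2 (fn (G j0.1) (m j0.1) (i j0.1)) ≠ 0) : c j0 = 0 := by
  classical
  have hBp : 0 < B := Nat.pos_of_ne_zero hB0
  have hX : ex B hB0 X = X ^ B := PowerSeries.expand_X B hB0
  choose e he using hm
  have he0 : ∀ j, e j ≠ 0 := by
    intro j h
    have := he j
    rw [h, mul_zero] at this
    exact hB0 this
  have hm0 : ∀ j, 0 < m j := fun j => by have := hi j; omega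
  have hie : ∀ j, i j * e j < B := by
    intro j
    rw [he j]
    exact Nat.mul_lt_mul_of_pos_right (hi j) (Nat.pos_of_ne_zero (he0 j))
  -- common shift
  obtain ⟨k0, hk0⟩ : ∃ k0 : ℕ, ∀ j, 0 ≤ 24 * (k0 : ℤ) + e j * τ j := by
    refine ⟨∑ j, (e j * τ j).natAbs, fun j => ?_⟩
    have h1 : (e j * τ j).natAbs ≤ ∑ j, (e j * τ j).natAbs :=
      Finset.single_le_sum (f := fun j => (e j * τ j).natAbs) (fun _ _ => Nat.zero_le _)
        (Finset.mem_univ j)
    omega
  set s : J → ℕ := fun j => (24 * (k0 : ℤ) + e j * τ j).toNat with hs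
  have hsz : ∀ j, (s j : ℤ) = 24 * k0 + e j * τ j := fun j => Int.toNat_of_nonneg (hk0 j)
  set g : J × Fin M → S := fun j =>
    X ^ k0 * ex (e j.1) (he0 j.1) (proj (m j.1 * M) (m j.1 * j.2 + i j.1) (G j.1)) with hg
  have hgX : ∀ j : J × Fin M, X ^ k0 * (X ^ (i j.1 * e j.1) *
      ex B hB0 (proj M j.2 (fn (G j.1) (m j.1) (i j.1)))) = g j := fun j => by
    rw [fn_rel (G j.1) (m j.1) (i j.1) (e j.1) j.2 M B (by rw [he j.1]; ring) hB0 (he0 j.1) (hi j.1)]
  have hALX : ∀ j : J × Fin M, ALX (g j) (s j.1) := by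
    intro j
    apply alx_of_az
    rw [hsz, hg]
    simp only
    rw [map_mul, map_pow]
    exact az_mul (az_x k0) (az_ex (he0 j.1) (hG j.1 _ _ (Nat.mul_pos (hm0 j.1) hM)))
  -- the polynomials
  set A : J × Fin M → F := fun j =>
    Polynomial.X ^ (B - i j.1 * e j.1) * Polynomial.expand (ZMod 2) B (c j) with hA
  set d' : F := Polynomial.X ^ (B + k0) * Polynomial.expand (ZMod 2) B d with hd'
  have hrel2 : ∑ j, io (A j) * g j + io d' = 0 := by
    have h5 : ∀ j : J × Fin M, io (A j) * g j = X ^ (B + k0) *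
        ex B hB0 (io (c j) * proj M j.2 (fn (G j.1) (m j.1) (i j.1))) := by
      intro j
      rw [← hgX, hA]
      simp only
      rw [map_mul, map_pow, QE2.io_X, ← ex_io B hB0, map_mul]
      have h6 : (X : S) ^ (B + k0) = X ^ (B - i j.1 * e j.1) * X ^ (i j.1 * e j.1) * X ^ k0 := by
        rw [← pow_add, ← pow_add]
        congr 1
        have := hie j.1
        omega
      rw [h6]
      ring
    rw [Finset.sum_congr rfl fun j _ => h5 j, ← Finset.mul_sum, ← map_sum, hd', map_mul, map_pow,
      QE2.io_X, ← ex_io B hB0, ← mul_add, ← map_add, hrel, map_zero, mul_zero]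
  -- coefficients of `c j0`
  apply Polynomial.ext
  intro n0
  rw [Polynomial.coeff_zero]
  set q0 : ℕ := B - i j0.1 * e j0.1 + B * n0 with hq0
  have h6 := lin0 QC.qc (J × Fin M) g (fun j => s j.1) hALX A d' hrel2 (24 * q0 + s j0.1)
  have hBz : ∀ j, (B : ℤ) = m j * e j := fun j => by rw [he j]; push_cast; ring
  have hqz : ∀ (j : J) (n : ℕ), ((B - i j * e j + B * n : ℕ) : ℤ) = B - i j * e j + B * n := by
    intro j n
    push_cast [Nat.cast_sub (hie j).le]
    ring
  have he0z : ∀ j, (e j : ℤ) ≠ 0 := fun j => by exact_mod_cast he0 j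
  have hm0z : ∀ j, (m j : ℤ) ≠ 0 := fun j => by exact_mod_cast (hm0 j).ne'
  -- the terms
  have hterm : ∀ j : J × Fin M, (if s j.1 ≤ 24 * q0 + s j0.1 ∧
      24 ∣ 24 * q0 + s j0.1 - s j.1 then
        io (Polynomial.monomial ((24 * q0 + s j0.1 - s j.1) / 24)
          ((A j).coeff ((24 * q0 + s j0.1 - s j.1) / 24))) * g j else 0) =
      if j.1 = j0.1 then X ^ q0 * (X ^ k0 * X ^ (i j0.1 * e j0.1)) *
        ex B hB0 (algebraMap (ZMod 2) S ((c j).coeff n0) *
          proj M j.2 (fn (G j0.1) (m j0.1) (i j0.1))) else 0 := by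
    intro j
    by_cases hj : j.1 = j0.1
    · rw [if_pos hj, hj, Nat.add_sub_cancel, Nat.mul_div_cancel_left _ (by norm_num : 0 < 24),
        if_pos ⟨by omega, Dvd.intro q0 rfl⟩, hA]
      simp only
      rw [hj, hq0, add_comm (B - i j0.1 * e j0.1), Polynomial.coeff_X_pow_mul,
        mul_comm B n0, Polynomial.coeff_expand_mul hBp]
      rw [← Polynomial.C_mul_X_pow_eq_monomial, map_mul, map_pow, QE2.io_X, QE2.io_C, ← hgX, hj,
        map_mul, AlgHom.commutes]
      ring
    · rw [if_neg hj]
      split_ifs with hcond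
      · obtain ⟨hle, q, hq⟩ := hcond
        rw [hq, Nat.mul_div_cancel_left _ (by norm_num : 0 < 24)]
        have h7 : (A j).coeff q = 0 := by
          rw [hA]
          simp only
          rw [Polynomial.coeff_X_pow_mul']
          split_ifs with h8
          · rw [Polynomial.coeff_expand hBp]
            split_ifs with h9
            · exfalso
              obtain ⟨n, hn⟩ := h9
              have hqq : (q : ℤ) = B - i j.1 * e j.1 + B * n := by
                rw [← hqz]
                congr 1
                omega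
              have hqq0 : (q0 : ℤ) = B - i j0.1 * e j0.1 + B * n0 := hqz _ _
              have hq' : (24 : ℤ) * q0 + s j0.1 = 24 * q + s j.1 := by
                have : 24 * q0 + s j0.1 = 24 * q + s j.1 := by omega
                exact_mod_cast this
              rw [hsz, hsz, hqq, hqq0] at hq'
              apply hj
              symm
              apply hexp
              refine ⟨n - n0, ?_⟩
              apply mul_left_cancel₀ (mul_ne_zero (he0z j0.1) (he0z j.1))
              have b1 := hBz j0.1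
              have b2 := hBz j.1
              have b3 : (e j0.1 : ℤ) * (τ j0.1 - 24 * i j0.1) - e j.1 * (τ j.1 - 24 * i j.1) =
                  24 * B * (n - n0) := by linear_combination hq'
              have b4 : (e j0.1 : ℤ) * e j.1 * (m j.1 * (τ j0.1 - 24 * i j0.1) -
                  m j0.1 * (τ j.1 - 24 * i j.1)) =
                  (m j.1 * e j.1) * (e j0.1 * (τ j0.1 - 24 * i j0.1)) -
                  (m j0.1 * e j0.1) * (e j.1 * (τ j.1 - 24 * i j.1)) := by ring
              rw [b4, ← b1, ← b2, ← mul_sub, b3]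
              have b5 : (e j0.1 : ℤ) * e j.1 * (24 * m j0.1 * m j.1 * (n - n0)) =
                  (m j0.1 * e j0.1) * (24 * (m j.1 * e j.1) * (n - n0)) := by ring
              rw [b5, ← b1, ← b2]
            · rfl
          · rfl
        rw [h7, map_zero, map_zero, zero_mul]
      · rfl
  have hlast : (if 24 ∣ 24 * q0 + s j0.1 then
      io (Polynomial.monomial ((24 * q0 + s j0.1) / 24)
        (d'.coeff ((24 * q0 + s j0.1) / 24))) else 0) = 0 := by
    split_ifs with hcond
    · obtain ⟨q, hq⟩ := hcond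
      rw [hq, Nat.mul_div_cancel_left _ (by norm_num : 0 < 24)]
      have h7 : d'.coeff q = 0 := by
        rw [hd', Polynomial.coeff_X_pow_mul']
        split_ifs with h8
        · rw [Polynomial.coeff_expand hBp]
          split_ifs with h9
          · exfalso
            obtain ⟨n, hn⟩ := h9
            have hqq : (q : ℤ) = B + k0 + B * n := by
              have : q = B + k0 + B * n := by omega
              rw [this]
              push_cast
              ring
            have hqq0 : (q0 : ℤ) = B - i j0.1 * e j0.1 + B * n0 := hqz _ _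
            have hq' : (24 : ℤ) * q0 + s j0.1 = 24 * q := by exact_mod_cast hq
            rw [hsz, hqq, hqq0, hBz j0.1] at hq'
            apply h24 j0.1
            refine ⟨i j0.1 + m j0.1 * (n - n0), ?_⟩
            apply mul_left_cancel₀ (he0z j0.1)
            linear_combination hq'
          · rfl
        · rfl
      rw [h7, map_zero, map_zero]
    · rfl
  rw [Finset.sum_congr rfl fun j _ => hterm j, hlast, add_zero] at h6
  have h7 : X ^ q0 * (X ^ k0 * X ^ (i j0.1 * e j0.1)) * ex B hB0 (∑ j : J × Fin M,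
      if j.1 = j0.1 then algebraMap (ZMod 2) S ((c j).coeff n0) *
        proj M j.2 (fn (G j0.1) (m j0.1) (i j0.1)) else 0) = 0 := by
    rw [map_sum, Finset.mul_sum]
    refine Eq.trans (Finset.sum_congr rfl fun j _ => ?_) h6
    split_ifs
    · rfl
    · rw [map_zero, mul_zero]
  have h8 := (mul_eq_zero.1 h7).resolve_left (mul_ne_zero (pow_ne_zero _ X_ne)
    (mul_ne_zero (pow_ne_zero _ X_ne) (pow_ne_zero _ X_ne)))
  have h9 := ex_inj B hB0 (h8.trans (map_zero _).symm)
  -- disjoint supports
  obtain ⟨n, hn⟩ : ∃ n, coeff n (proj M j0.2 (fn (G j0.1) (m j0.1) (i j0.1))) ≠ 0 := by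
    by_contra hcon
    push Not at hcon
    exact hj0 (PowerSeries.ext (fun n => by rw [map_zero]; exact hcon n))
  have hnr : n % M = j0.2 % M := by
    by_contra h
    apply hn
    rw [proj, coeff_mk, if_neg h]
  have h10 := congrArg (coeff n) h9
  rw [map_sum, map_zero, Finset.sum_eq_single j0] at h10
  · rw [if_pos rfl, ← Algebra.smul_def, map_smul, smul_eq_mul] at h10
    exact (mul_eq_zero.1 h10).resolve_right hn
  · intro j _ hjj
    split_ifs with h11
    · rw [← Algebra.smul_def, map_smul, smul_eq_mul, proj, coeff_mk, if_neg, mul_zero]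
      intro h12
      apply hjj
      have h13 : (j.2 : ℕ) = j0.2 := by
        rw [hnr, Nat.mod_eq_of_lt j0.2.2, Nat.mod_eq_of_lt j.2.2] at h12
        exact h12.symm
      exact Prod.ext h11 (Fin.ext h13)
    · rw [map_zero]
  · intro h
    exact absurd (Finset.mem_univ _) h

end Pool.Agent.Y627.PT
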