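import Pool.Agent.Helper386.D5V.Helper807_PL_Hensel

set_option autoImplicit false

/-!
# Hensel's lemma over a power series ring, strong form, with the closeness of the root
-/

namespace Pool.Agent.Y627.PT

open Polynomial

theorem hen {κ : Type*} [Field κ] (p : (PowerSeries κ)[X]) (a₀ : PowerSeries κ) (d N : ℕ)
    (u : PowerSeries κ) (hu : IsUnit u) (hN : 2 * d + 1 ≤ N)
    (h0 : (PowerSeries.X : PowerSeries κ) ^ N ∣ p.eval a₀)
    (h1 : p.derivative.eval a₀ = PowerSeries.X ^ d * u) :
    ∃ a : PowerSeries κ, p.eval a = 0 ∧ (PowerSeries.X : PowerSeries κ) ^ (N - d) ∣ a - a₀ := by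
  obtain ⟨j, rfl⟩ : ∃ j, N = 2 * d + 1 + j := ⟨N - (2 * d + 1), by omega⟩
  obtain ⟨e', he'⟩ := h0
  set e := PowerSeries.X ^ j * e' with he
  have h0' : p.eval a₀ = PowerSeries.X ^ (2 * d + 1) * e := by
    rw [he', he]; ring
  set T := taylor a₀ p with hT
  let t := T.divX.divX
  have hT2 : T = t * X ^ 2 + C (PowerSeries.X ^ d * u) * X + C (PowerSeries.X ^ (2 * d + 1) * e) := by
    have h2 : T = T.divX * X + C (T.coeff 0) := (T.divX_mul_X_add).symm
    have h3 : T.divX = t * X + C (T.divX.coeff 0) := (T.divX.divX_mul_X_add).symm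
    have h4 : T.coeff 0 = PowerSeries.X ^ (2 * d + 1) * e := by
      rw [hT, taylor_coeff_zero, h0']
    have h5 : T.divX.coeff 0 = PowerSeries.X ^ d * u := by
      rw [coeff_divX, zero_add, hT, taylor_coeff_one, h1]
    rw [h2, h3, h4, h5]
    ring
  let f : (PowerSeries κ)[X] :=
    (t.comp (C (PowerSeries.X ^ d) * X)) * X ^ 2 + C u * X + C (PowerSeries.X * e)
  have hf : ∀ z : PowerSeries κ,
      T.eval (PowerSeries.X ^ d * z) = PowerSeries.X ^ (2 * d) * f.eval z := by
    intro z
    rw [hT2]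
    simp only [f, eval_add, eval_mul, eval_C, eval_X, eval_pow, eval_comp]
    ring
  obtain ⟨z, hz, hz2⟩ := PL.hensel_nonmonic (PowerSeries κ) (Ideal.span {PowerSeries.X}) f 0 (by
    simp only [f, eval_add, eval_mul, eval_C, eval_X, eval_pow]
    rw [zero_pow two_ne_zero, mul_zero, mul_zero, zero_add, zero_add]
    exact Ideal.mul_mem_right _ _ (Ideal.mem_span_singleton_self _)) (by
    have : f.derivative.eval 0 = u := by
      simp [f]
    rw [this]
    exact hu.map _)
  refine ⟨a₀ + PowerSeries.X ^ d * z, ?_, ?_⟩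
  · have h6 := hf z
    rw [show f.eval z = 0 from hz, mul_zero, hT, taylor_eval] at h6
    rwa [add_comm]
  · have h7 : z * (u + (t.eval (PowerSeries.X ^ d * z)) * z) = PowerSeries.X ^ (j + 1) * (-e') := by
      have h8 : f.eval z = 0 := hz
      simp only [f, eval_add, eval_mul, eval_C, eval_X, eval_pow, eval_comp] at h8
      rw [he] at h8
      linear_combination h8
    have h9 : IsUnit (u + (t.eval (PowerSeries.X ^ d * z)) * z) := by
      rw [PowerSeries.isUnit_iff_constantCoeff]
      rw [sub_zero, Ideal.mem_span_singleton, PowerSeries.X_dvd_iff] at hz2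
      rw [map_add, map_mul, hz2, mul_zero, add_zero]
      exact PowerSeries.isUnit_iff_constantCoeff.1 hu
    obtain ⟨w, hw⟩ := h9
    have h10 : z = PowerSeries.X ^ (j + 1) * (-e' * (↑w⁻¹ : PowerSeries κ)) := by
      rw [← mul_assoc, ← h7, ← hw, mul_assoc, Units.mul_inv, mul_one]
    have h11 : 2 * d + 1 + j - d = d + (j + 1) := by omega
    rw [h11, add_sub_cancel_left, pow_add]
    exact mul_dvd_mul_left _ ⟨_, h10⟩

end Pool.Agent.Y627.PT
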