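import Pool.Agent.Y627.PT.Stm

set_option autoImplicit false

/-!
# Linear relations between sections: statements of the tasks, second part
-/

namespace Pool.Agent.Y627.PT

open PowerSeries Pool.Agent.TH693.PP Pool.Agent.TH693.QQ Pool.Agent.H397R2.PP

/-- `g / X ^ (e / 24)` is algebraic over `F_2(Db)` -/
def ALX (g : S) (e : ℕ) : Prop :=
  AL (algebraMap Sk Lk (ik g) ^ 24 / algebraMap Sk Lk X ^ e)

/-- task LIN0: a linear relation splits according to the powers of `X ^ (1 / 24)` -/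
def S_LIN0 : Prop := ¬ AlgX Db →
  ∀ (J : Type) [Fintype J] (g : J → S) (e : J → ℕ), (∀ j, ALX (g j) (e j)) →
    ∀ (A : J → F) (b : F), ∑ j, io (A j) * g j + io b = 0 →
    ∀ E : ℕ, ∑ j, (if e j ≤ E ∧ 24 ∣ E - e j then
        io (Polynomial.monomial ((E - e j) / 24) ((A j).coeff ((E - e j) / 24))) * g j else 0) +
      (if 24 ∣ E then io (Polynomial.monomial (E / 24) (b.coeff (E / 24))) else 0) = 0

/-- task EXP -/
def S_EXP : Prop := ∀ (g : S) (e : ℕ), ALX g e → ALX (c3 g) (3 * e) ∧ ALX (g ^ 2) (2 * e)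

end Pool.Agent.Y627.PT
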