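import Pool.Agent.Y627.PT.R2
import Pool.Agent.Y627.PT.Stm2
import Pool.Agent.Y517.PT.Lin
import Pool.Agent.H307R2.OP.MS

set_option autoImplicit false

/-!
# `D(X ^ q)` is algebraic over `F_2(D)` for all `q` (Hecke operators)
-/

namespace Pool.Agent.Y627.PT

open PowerSeries Pool.Agent.TH693.PP Pool.Agent.TH693.QQ Pool.Agent.H397R2.PP

/-- substitution `X → X ^ e` -/
noncomputable def ex (e : ℕ) (he : e ≠ 0) : S →ₐ[ZMod 2] S := PowerSeries.expand e he

theorem ex_ex (p q r : ℕ) (hp : p ≠ 0) (hq : q ≠ 0) (hr : r ≠ 0) (h : r = p * q) (g : S) :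
    ex p hp (ex q hq g) = ex r hr g := by
  subst h
  unfold ex
  ext n
  rw [PowerSeries.coeff_expand, PowerSeries.coeff_expand]
  have hp' : 0 < p := Nat.pos_of_ne_zero hp
  have hq' : 0 < q := Nat.pos_of_ne_zero hq
  by_cases h3 : p ∣ n
  · obtain ⟨k, rfl⟩ := h3
    rw [if_pos (Dvd.intro k rfl), Nat.mul_div_cancel_left k hp', PowerSeries.coeff_expand]
    by_cases h4 : q ∣ k
    · obtain ⟨l, rfl⟩ := h4
      have h5 : p * (q * l) = p * q * l := by ring
      rw [h5, if_pos (Dvd.intro l rfl), if_pos (Dvd.intro l rfl),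
        Nat.mul_div_cancel_left l (by positivity), Nat.mul_div_cancel_left l (by positivity)]
    · rw [if_neg h4, if_neg]
      rintro ⟨l, hl⟩
      apply h4
      refine ⟨l, ?_⟩
      have : p * k = p * (q * l) := by rw [hl]; ring
      exact Nat.eq_of_mul_eq_mul_left hp' this
  · rw [if_neg h3, PowerSeries.coeff_expand, if_neg]
    rintro ⟨l, hl⟩
    exact h3 ⟨q * l, by rw [hl]; ring⟩

theorem ex_one (g : S) (h : (1 : ℕ) ≠ 0) : ex 1 h g = g := by
  ext n
  unfold ex
  rw [PowerSeries.coeff_expand]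
  simp

/-- the substitution `X → X ^ q` over `kk` -/
noncomputable def ph0 (q : ℕ) (hq : q ≠ 0) : Sk →+* Sk :=
  (PowerSeries.expand q hq : Sk →ₐ[kk] Sk).toRingHom

theorem ph0_inj (q : ℕ) (hq : q ≠ 0) : Function.Injective (ph0 q hq) := by
  intro f g h
  ext n
  have h1 := congrArg (coeff (q * n)) h
  change coeff (q * n) (PowerSeries.expand q hq f) =
    coeff (q * n) (PowerSeries.expand q hq g) at h1
  rwa [PowerSeries.coeff_expand_mul, PowerSeries.coeff_expand_mul] at h1

theorem ph0_X (q : ℕ) (hq : q ≠ 0) : ph0 q hq X = X ^ q := PowerSeries.expand_X q hq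

theorem ph0_ik (q : ℕ) (hq : q ≠ 0) (g : S) : ph0 q hq (ik g) = ik (ex q hq g) :=
  (PowerSeries.map_expand q hq (algebraMap (ZMod 2) kk) g).symm

/-- the same for the field of fractions -/
noncomputable def ph (q : ℕ) (hq : q ≠ 0) : Lk →ₐ[ZMod 2] Lk where
  toRingHom := IsLocalization.map (M := nonZeroDivisors Sk) (T := nonZeroDivisors Sk) Lk (ph0 q hq)
    (nonZeroDivisors_le_comap_nonZeroDivisors_of_injective (ph0 q hq) (ph0_inj q hq))
  commutes' r := by
    exact congrArg (fun f : ZMod 2 →+* Lk => f r) (Subsingleton.elim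
      ((IsLocalization.map (M := nonZeroDivisors Sk) (T := nonZeroDivisors Sk) Lk (ph0 q hq)
        (nonZeroDivisors_le_comap_nonZeroDivisors_of_injective (ph0 q hq) (ph0_inj q hq))).comp
        (algebraMap (ZMod 2) Lk)) (algebraMap (ZMod 2) Lk))

theorem ph_alg (q : ℕ) (hq : q ≠ 0) (s : Sk) :
    ph q hq (algebraMap Sk Lk s) = algebraMap Sk Lk (ph0 q hq s) :=
  IsLocalization.map_eq (M := nonZeroDivisors Sk) (T := nonZeroDivisors Sk) (Q := Lk)
    (nonZeroDivisors_le_comap_nonZeroDivisors_of_injective (ph0 q hq) (ph0_inj q hq)) s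

theorem alx_of_mem {q : ℕ} (hq : q ≠ 0)
    (hD : T5.jj (ex q hq Db) ∈ QE2.cl (ZMod 2) {T5.jj Db}) {g : S} {e : ℕ} (h : ALX g e) :
    ALX (ex q hq g) (q * e) := by
  have h1 := T5.mem_of_AL h
  have h2 := Pool.Agent.Y517.PT.cl_map (ph q hq) h1
  have h3 : ph q hq (T5.jj Db) = T5.jj (ex q hq Db) := by
    rw [T5.jj_apply, ph_alg, ph0_ik, T5.jj_apply]
  rw [h3] at h2
  have h4 := QE2.cl_cl (t := {T5.jj Db}) (by
    intro x hx
    rw [Set.mem_singleton_iff] at hx
    rw [hx]
    exact hD) h2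
  rw [QE2.mem_cl] at h4
  have h5 : ph q hq (algebraMap Sk Lk (ik g) ^ 24 / algebraMap Sk Lk X ^ e) =
      algebraMap Sk Lk (ik (ex q hq g)) ^ 24 / algebraMap Sk Lk X ^ (q * e) := by
    rw [map_div₀, map_pow, map_pow, ph_alg, ph_alg, ph0_ik, ph0_X, map_pow, ← pow_mul]
  rw [h5] at h4
  exact h4

/-- the decomposition of the Hecke operator -/
theorem hecke_sum {q : ℕ} (hq : q ≠ 0) (hodd : Odd q) {z : kk} (hz : IsPrimitiveRoot z q) (f : S) :
    ik (ex q hq (Tp q f)) = ∑ i ∈ Finset.range q, PowerSeries.rescale (z ^ i) (ik f) +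
      ik (ex q hq (ex q hq f)) := by
  have hq' : 0 < q := Nat.pos_of_ne_zero hq
  ext n
  have h1 := T4.sect q hodd z hz 0 n
  simp only [pow_zero, inv_one, one_mul, Nat.zero_mod] at h1
  rw [map_add, map_sum]
  simp only [PowerSeries.coeff_rescale]
  rw [← Finset.sum_mul, h1]
  unfold ik ex
  rw [PowerSeries.coeff_map, PowerSeries.coeff_map, PowerSeries.coeff_map,
    PowerSeries.coeff_expand, PowerSeries.coeff_expand]
  by_cases h2 : q ∣ n
  · obtain ⟨k, rfl⟩ := h2
    rw [if_pos (Dvd.intro k rfl), if_pos (Nat.mul_mod_right q k), if_pos (Dvd.intro k rfl),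
      Nat.mul_div_cancel_left k hq', Tp, coeff_mk, PowerSeries.coeff_expand, map_add, one_mul]
  · rw [if_neg h2, if_neg h2, if_neg (fun h => h2 (Nat.dvd_of_mod_eq_zero h)), map_zero, zero_mul,
      zero_add]

theorem exD_mem {q : ℕ} (hq : q.Prime) (hq2 : q ≠ 2) :
    T5.jj (ex q hq.ne_zero Db) ∈ QE2.cl (ZMod 2) {T5.jj Db} := by
  have hodd : Odd q := hq.odd_of_ne_two hq2
  have hne : NeZero ((q : ℕ) : ZMod 2) := ⟨by
    rw [Ne, ZMod.natCast_eq_zero_iff]
    exact fun h => (Nat.not_even_iff_odd.2 hodd) (even_iff_two_dvd.2 h)⟩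
  obtain ⟨z, hz⟩ := HasEnoughRootsOfUnity.exists_primitiveRoot kk q
  have hzi : ∀ i, (z ^ i) ^ q = 1 := fun i => by
    rw [← pow_mul, mul_comm, pow_mul, hz.pow_eq_one, one_pow]
  set K := Pool.Agent.Y517.PT.Kc (ZMod 2) (T5.jj Db) with hK
  have hDi : ∀ i, algebraMap Sk Lk (PowerSeries.rescale (z ^ i) (ik Db)) ∈ K := by
    intro i
    rw [Pool.Agent.Y517.PT.mem_Kc]
    exact T5.mem_of_AL ((t3 (t2 T1.t1)) q hodd (z ^ i) (hzi i))
  -- `k = 1`
  have h1 := hecke_sum hq.ne_zero hodd hz Db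
  have hT1 : Tp q Db = 0 := by
    have := Pool.Agent.H307R2.OP.MS.d1 q hq hq2
    rwa [pow_one] at this
  rw [hT1, map_zero, map_zero] at h1
  have h2 : T5.jj (ex q hq.ne_zero (ex q hq.ne_zero Db)) ∈ K := by
    have h3 : algebraMap Sk Lk (ik (ex q hq.ne_zero (ex q hq.ne_zero Db))) =
        - ∑ i ∈ Finset.range q, algebraMap Sk Lk (PowerSeries.rescale (z ^ i) (ik Db)) := by
      rw [← map_sum, ← map_neg]
      congr 1
      rw [eq_neg_iff_add_eq_zero, add_comm]
      exact h1.symm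
    rw [T5.jj_apply (ex q hq.ne_zero (ex q hq.ne_zero Db)), h3]
    exact Subalgebra.neg_mem _ (Subalgebra.sum_mem _ fun i _ => hDi i)
  -- `k = q`
  have h4 := hecke_sum hq.ne_zero hodd hz (Db ^ q)
  have h5 : T5.jj (ex q hq.ne_zero (Tp q (Db ^ q))) ∈ K := by
    rw [T5.jj_apply (ex q hq.ne_zero (Tp q (Db ^ q))), h4, map_add, map_sum]
    refine Subalgebra.add_mem _ (Subalgebra.sum_mem _ fun i _ => ?_) ?_
    · rw [map_pow, map_pow, map_pow]
      exact Subalgebra.pow_mem _ (hDi i) q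
    · rw [map_pow, map_pow, map_pow, map_pow]
      exact Subalgebra.pow_mem _ h2 q
  -- `Tp q (Db ^ q)` is a polynomial in `Db`
  have h6 : ∃ R : Polynomial (ZMod 2), Polynomial.aeval Db R = Tp q (Db ^ q) := by
    have h7 := Pool.Agent.H307R2.OP.MS.mem q q hq hq2 hq.one_le
    have key : ∀ φ ∈ Submodule.span (ZMod 2)
        {φ : S | ∃ j : ℕ, j ≤ q ∧ j % 8 = (q * q) % 8 ∧ φ = Db ^ j},
        ∃ R : Polynomial (ZMod 2), Polynomial.aeval Db R = φ := by
      intro φ hφ
      induction hφ using Submodule.span_induction with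
      | mem x hx =>
        obtain ⟨j, -, -, rfl⟩ := hx
        exact ⟨Polynomial.X ^ j, by rw [map_pow, Polynomial.aeval_X]⟩
      | zero => exact ⟨0, map_zero _⟩
      | add x y _ _ hx hy =>
        obtain ⟨R, rfl⟩ := hx
        obtain ⟨R', rfl⟩ := hy
        exact ⟨R + R', map_add _ _ _⟩
      | smul c x _ hx =>
        obtain ⟨R, rfl⟩ := hx
        exact ⟨c • R, map_smul _ _ _⟩
    exact key _ h7
  obtain ⟨R, hR⟩ := h6
  have hc1 : coeff 1 (Tp q (Db ^ q)) = 1 := by
    rw [Pool.Agent.H307R2.OP.MS.coeff_one_Tp q hq]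
    have hD : Db = X * E ^ 24 := rfl
    rw [hD, mul_pow]
    have h8 := PowerSeries.coeff_X_pow_mul ((E ^ 24) ^ q) q 0
    rw [zero_add] at h8
    rw [h8, PowerSeries.coeff_zero_eq_constantCoeff_apply, map_pow, map_pow, constE, one_pow,
      one_pow]
  have hRd : R.natDegree ≠ 0 := by
    intro h0
    rw [Polynomial.eq_C_of_natDegree_eq_zero h0, Polynomial.aeval_C] at hR
    rw [← hR] at hc1
    have h9 : coeff 1 (algebraMap (ZMod 2) S (R.coeff 0)) = 0 := by
      rw [Algebra.algebraMap_eq_smul_one, map_smul, PowerSeries.coeff_one, if_neg one_ne_zero,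
        smul_zero]
    rw [h9] at hc1
    exact zero_ne_one hc1
  set y := T5.jj (ex q hq.ne_zero Db) with hy
  have h10 : Polynomial.aeval y R ∈ QE2.cl (ZMod 2) {T5.jj Db} := by
    rw [← Pool.Agent.Y517.PT.mem_Kc]
    have h11 : Polynomial.aeval y R = T5.jj (ex q hq.ne_zero (Tp q (Db ^ q))) := by
      rw [← hR, hy, ← Polynomial.aeval_algHom_apply, ← Polynomial.aeval_algHom_apply]
    rw [h11]
    exact h5
  have h12 : y ∈ QE2.cl (ZMod 2) {Polynomial.aeval y R} := by
    rw [QE2.mem_cl]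
    set d : Algebra.adjoin (ZMod 2) {Polynomial.aeval y R} :=
      ⟨Polynomial.aeval y R, Algebra.subset_adjoin (Set.mem_singleton _)⟩ with hd
    refine ⟨R.map (algebraMap (ZMod 2) _) - Polynomial.C d, ?_, ?_⟩
    · intro h0
      have h13 := congrArg (fun p => Polynomial.coeff p R.natDegree) h0
      simp only [Polynomial.coeff_sub, Polynomial.coeff_map, Polynomial.coeff_C, hRd, if_false,
        sub_zero, Polynomial.coeff_zero] at h13
      have h14 : R.coeff R.natDegree = 0 := by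
        have hinj : Function.Injective (algebraMap (ZMod 2)
            (Algebra.adjoin (ZMod 2) {Polynomial.aeval y R})) := RingHom.injective _
        exact hinj (h13.trans (map_zero _).symm)
      rw [Polynomial.coeff_natDegree, Polynomial.leadingCoeff_eq_zero] at h14
      rw [h14, Polynomial.natDegree_zero] at hRd
      exact hRd rfl
    · rw [map_sub, Polynomial.aeval_C, Polynomial.aeval_map_algebraMap]
      exact sub_self _
  exact QE2.cl_cl (t := {T5.jj Db}) (by
    intro x hx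
    rw [Set.mem_singleton_iff] at hx
    rw [hx]
    exact h10) h12

/-- **the property `ALX` under all substitutions** -/
theorem alx_ex {e : ℕ} (he : e ≠ 0) {g : S} {s : ℕ} (h : ALX g s) : ALX (ex e he g) (e * s) := by
  induction e using Nat.strong_induction_on generalizing g s with
  | _ e ih =>
  by_cases h1 : e = 1
  · subst h1
    rw [ex_one, one_mul]
    exact h
  · have hp := Nat.minFac_prime h1
    obtain ⟨e', he'⟩ := Nat.minFac_dvd e
    have he0 : e' ≠ 0 := by rintro rfl; rw [mul_zero] at he'; exact he he'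
    have hlt : e' < e := by
      rw [he']
      exact lt_mul_left (Nat.pos_of_ne_zero he0) hp.one_lt
    have h2 := ih e' hlt he0 h
    have h3 : ALX (ex e.minFac hp.ne_zero (ex e' he0 g)) (e.minFac * (e' * s)) := by
      by_cases h4 : e.minFac = 2
      · have h5 : ex e.minFac hp.ne_zero (ex e' he0 g) = (ex e' he0 g) ^ 2 := by
          have h6 := pow_two_expand 1 (ex e' he0 g)
          have h7 : ∀ (k : ℕ) (hk : k ≠ 0), k = 2 → ex k hk (ex e' he0 g) =
              PowerSeries.expand (2 ^ 1) (by positivity) (ex e' he0 g) := by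
            rintro k hk rfl
            rfl
          rw [h7 _ _ h4, ← h6, pow_one]
        rw [h5, h4]
        have h8 : algebraMap Sk Lk (ik ((ex e' he0 g) ^ 2)) ^ 24 /
            algebraMap Sk Lk X ^ (2 * (e' * s)) =
            (algebraMap Sk Lk (ik (ex e' he0 g)) ^ 24 / algebraMap Sk Lk X ^ (e' * s)) ^ 2 := by
          rw [map_pow, map_pow, div_pow]
          ring
        unfold ALX
        rw [h8]
        exact IsAlgebraic.pow h2 2
      · exact alx_of_mem hp.ne_zero (exD_mem hp h4) h2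
    rw [ex_ex _ _ e hp.ne_zero he0 he he', ← mul_assoc, ← he'] at h3
    exact h3

end Pool.Agent.Y627.PT
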