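import Pool.Agent.Y627.PT.Mt

set_option autoImplicit false

/-!
# Linear forms in functions that are algebraic over `F_2(X, D)`
-/

namespace Pool.Agent.Y627.PT

open PowerSeries Pool.Agent.TH693.PP Pool.Agent.TH693.QQ Pool.Agent.H397R2.PP

theorem nc_of_algOver {D g : S} (hg : AlgOver D g) : ∃ m h k : ℕ, Nc D m h k g := by
  obtain ⟨G, hG, he⟩ := hg
  refine ⟨G.natDegree, G.support.sup fun i => (G.coeff i).support.sup fun j =>
    ((G.coeff i).coeff j).natDegree, G.support.sup fun i => (G.coeff i).natDegree,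
    G.map (evp D), hG, Polynomial.natDegree_map_le, fun i => ?_, he⟩
  rw [Polynomial.coeff_map]
  refine ⟨G.coeff i, ⟨?_, fun j => ?_⟩, rfl⟩
  · by_cases hi : i ∈ G.support
    · exact Finset.le_sup (f := fun i => (G.coeff i).natDegree) hi
    · rw [Polynomial.notMem_support_iff.1 hi, Polynomial.natDegree_zero]
      exact Nat.zero_le _
  · by_cases hi : i ∈ G.support
    · refine le_trans ?_ (Finset.le_sup (f := fun i => (G.coeff i).support.sup fun j =>
        ((G.coeff i).coeff j).natDegree) hi)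
      by_cases hj : j ∈ (G.coeff i).support
      · exact Finset.le_sup (f := fun j => ((G.coeff i).coeff j).natDegree) hj
      · rw [Polynomial.notMem_support_iff.1 hj, Polynomial.natDegree_zero]
        exact Nat.zero_le _
    · rw [Polynomial.notMem_support_iff.1 hi, Polynomial.coeff_zero, Polynomial.natDegree_zero]
      exact Nat.zero_le _

/-- the property of a finite family -/
def LFor {J : Type} [Fintype J] (g : J → S) : Prop :=
  ∃ C : ℕ, ∀ (h : ℕ) (a : J → F) (b : F), (∀ j, (a j).natDegree ≤ h) → b.natDegree ≤ h →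
    ∑ j, io (a j) * g j + io b ≠ 0 → ∀ N, (X : S) ^ N ∣ ∑ j, io (a j) * g j + io b →
      N ≤ C * (h + 1)

theorem lf (clo : S_CLO) {D : S} (hD : MTof D) {J : Type} [Fintype J] (g : J → S)
    (hg : ∀ j, AlgOver D (g j)) : LFor g := by
  classical
  have key : ∀ s : Finset J, ∃ m c k : ℕ, ∀ (h : ℕ) (a : J → F) (b : F),
      (∀ j, (a j).natDegree ≤ h) → b.natDegree ≤ h →
      Nc D m (c * (h + 1)) k (∑ j ∈ s, io (a j) * g j + io b) := by
    intro s
    induction s using Finset.induction_on with
    | empty =>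
      refine ⟨1, 1, 0, fun h a b _ hb => ?_⟩
      rw [Finset.sum_empty, zero_add]
      exact (nc_io D h b hb).mono le_rfl (by omega) le_rfl
    | insert j s hj ih =>
      obtain ⟨m, c, k, hmc⟩ := ih
      obtain ⟨m0, h0, k0, hg0⟩ := nc_of_algOver (hg j)
      refine ⟨1 * m0 * m, 1 * m0 * m * (1 * m0 * (1 + h0) + c), 1 * m0 * m * (1 * m0 * (0 + k0) + k),
        fun h a b ha hb => ?_⟩
      · rw [Finset.sum_insert hj, add_assoc]
        have h1 := (clo _ _ _ _ _ _ _ _ _ (nc_io D h (a j) (ha j)) hg0).2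
        refine ((clo _ _ _ _ _ _ _ _ _ h1 (hmc h a b ha hb)).1).mono le_rfl ?_ le_rfl
        have h2 : 1 * m0 * m * (1 * m0 * (1 + h0) + c) * (h + 1) =
          1 * m0 * m * (1 * m0 * ((1 + h0) * (h + 1)) + c * (h + 1)) := by ring
        rw [h2]
        refine Nat.mul_le_mul_left _ (Nat.add_le_add_right (Nat.mul_le_mul_left _ ?_) _)
        nlinarith [Nat.zero_le (h0 * h)]
  obtain ⟨m, c, k, hmc⟩ := key Finset.univ
  obtain ⟨C, hC⟩ := hD k
  refine ⟨C * (c + 1), fun h a b ha hb hne N hN => ?_⟩
  obtain ⟨s, ⟨G, hG, rfl⟩, hs0, hds⟩ := lio (hmc h a b ha hb) hne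
  have hG0 : G ≠ 0 := by
    rintro rfl
    exact hs0 (map_zero _)
  have := hC (c * (h + 1)) G hG0 hG N (hN.trans hds)
  refine this.trans ?_
  rw [mul_assoc]
  refine Nat.mul_le_mul_left _ ?_
  nlinarith [Nat.zero_le (c * h)]

/-- the pattern lemma -/
theorem pat {J : Type} [Fintype J] (f : J → S) (M : ℕ) (hM : 0 < M)
    (hLF : LFor (fun j : J × Fin M => proj M j.2 (f j.1)))
    (hLIN : ∀ (a : J × Fin M → F) (b : F),
      ∑ j : J × Fin M, io (a j) * proj M j.2 (f j.1) + io b = 0 →
      ∀ j : J × Fin M, proj M j.2 (f j.1) ≠ 0 → a j = 0) :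
    ∃ C : ℕ, ∀ (L : ℕ) (c : J → Fin (L + 1) → ZMod 2) (ρ : ℕ),
      (∃ t i, c t i ≠ 0 ∧ proj M (ρ + i) (f t) ≠ 0) → ∀ (κ : ZMod 2) (A : ℕ),
      ∃ n, A ≤ n ∧ n ≤ C * (A + L + 1) ∧ n % M = ρ % M ∧
        ∑ t, ∑ i : Fin (L + 1), c t i * coeff (n + i) (f t) = κ := by
  classical
  obtain ⟨C, hC⟩ := hLF
  refine ⟨C * (M + 1), fun L c ρ hc κ A => ?_⟩
  by_contra hcon
  push Not at hcon
  have h1 : ∀ a b : ZMod 2, a ≠ b → a = b + 1 := by decide
  set B := C * (M + 1) * (A + L + 1) with hB
  have hrun : ∀ n, A ≤ n → n ≤ B → n % M = ρ % M →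
      ∑ t, ∑ i : Fin (L + 1), c t i * coeff (n + i) (f t) = κ + 1 :=
    fun n h2 h3 h4 => h1 _ _ (hcon n h2 h3 h4)
  -- the coefficients
  set a : J × Fin M → F := fun j => ∑ i : Fin (L + 1), if (ρ + i) % M = j.2 then
    Polynomial.C (c j.1 i) * Polynomial.X ^ (L - i) else 0 with ha
  set l0 : S := ∑ j : J × Fin M, io (a j) * proj M j.2 (f j.1) with hl0
  have hco : ∀ n, coeff (n + L) l0 = if n % M = ρ % M then
      ∑ t, ∑ i : Fin (L + 1), c t i * coeff (n + i) (f t) else 0 := by
    intro n
    have e1 : ∀ j : J × Fin M, coeff (n + L) (io (a j) * proj M j.2 (f j.1)) =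
        ∑ i : Fin (L + 1), if (ρ + i) % M = j.2 then
          c j.1 i * coeff (n + i) (proj M j.2 (f j.1)) else 0 := by
      intro j
      rw [ha]
      simp only [map_sum, Finset.sum_mul]
      refine Finset.sum_congr rfl fun i _ => ?_
      split_ifs with h2
      · have h4 : io (Polynomial.C (c j.1 i) * Polynomial.X ^ (L - (i : ℕ))) =
            algebraMap (ZMod 2) S (c j.1 i) * X ^ (L - (i : ℕ)) := by
          rw [map_mul, map_pow, QE2.io_X, QE2.io_C]
        have h3 : n + L = (n + i) + (L - i) := by have := i.2; omega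
        rw [h4, mul_assoc, h3, ← Algebra.smul_def, map_smul, PowerSeries.coeff_X_pow_mul,
          smul_eq_mul]
      · rw [map_zero, zero_mul, map_zero]
    rw [hl0, map_sum, Finset.sum_congr rfl fun j _ => e1 j, Fintype.sum_prod_type]
    have e2 : ∀ t : J, ∑ r : Fin M, ∑ i : Fin (L + 1), (if (ρ + i) % M = (r : ℕ) then
        c t i * coeff (n + i) (proj M r (f t)) else 0) =
        ∑ i : Fin (L + 1), if n % M = ρ % M then c t i * coeff (n + i) (f t) else 0 := by
      intro t
      rw [Finset.sum_comm]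
      refine Finset.sum_congr rfl fun i _ => ?_
      have hlt : (ρ + i) % M < M := Nat.mod_lt _ hM
      rw [Finset.sum_eq_single (⟨(ρ + i) % M, hlt⟩ : Fin M)]
      · rw [if_pos rfl]
        unfold proj
        rw [coeff_mk]
        simp only [Nat.mod_mod]
        by_cases h2 : n % M = ρ % M
        · have h3 : (n + (i : ℕ)) % M = (ρ + i) % M := Nat.ModEq.add_right _ h2
          rw [if_pos h2, if_pos h3]
        · have h3 : ¬ (n + (i : ℕ)) % M = (ρ + i) % M := fun h3 =>
            h2 (Nat.ModEq.add_right_cancel' _ h3)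
          rw [if_neg h2, if_neg h3, mul_zero]
      · intro r _ hr
        rw [if_neg]
        intro h2
        exact hr (Fin.ext h2.symm)
      · intro h2
        exact absurd (Finset.mem_univ _) h2
    rw [Finset.sum_congr rfl fun t _ => e2 t]
    split_ifs
    · rfl
    · simp
  set U : F := 1 + Polynomial.X ^ M with hU
  have hU0 : U ≠ 0 := by
    intro h0
    have h1 := congrArg (fun g : F => g.coeff 0) h0
    simp only [hU, Polynomial.coeff_add, Polynomial.coeff_one, Polynomial.coeff_X_pow, hM.ne,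
      if_true, if_false, add_zero, Polynomial.coeff_zero] at h1
    exact one_ne_zero h1
  have hUd : U.natDegree ≤ M := by
    refine (Polynomial.natDegree_add_le _ _).trans (max_le (by simp) ?_)
    exact (Polynomial.natDegree_X_pow_le M)
  set g : S := io U * l0 with hg
  set b : F := PowerSeries.trunc (A + M + L) g with hb
  set a' : J × Fin M → F := fun j => U * a j with ha'
  have hlam : ∑ j : J × Fin M, io (a' j) * proj M j.2 (f j.1) + io b = g + io b := by
    rw [hg, hl0, Finset.mul_sum]
    congr 1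
    refine Finset.sum_congr rfl fun j _ => ?_
    rw [ha', map_mul, mul_assoc]
  have had : ∀ j, (a j).natDegree ≤ L := by
    intro j
    refine Polynomial.natDegree_sum_le_of_forall_le _ _ fun i _ => ?_
    split_ifs
    · refine (Polynomial.natDegree_C_mul_X_pow_le _ _).trans (Nat.sub_le _ _)
    · simp
  have ha'd : ∀ j, (a' j).natDegree ≤ A + M + L := by
    intro j
    refine Polynomial.natDegree_mul_le.trans ?_
    have := had j
    omega
  have hbd : b.natDegree ≤ A + M + L := by
    obtain ⟨q, hq⟩ : ∃ q, A + M + L = q + 1 := ⟨A + M + L - 1, by omega⟩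
    rw [hb, hq]
    exact (PowerSeries.natDegree_trunc_lt g q).le
  have hne : ∑ j : J × Fin M, io (a' j) * proj M j.2 (f j.1) + io b ≠ 0 := by
    intro h0
    obtain ⟨t, i, hci, hpi⟩ := hc
    have hlt : (ρ + i) % M < M := Nat.mod_lt _ hM
    have hpe : proj M (ρ + i) (f t) = proj M ((ρ + i) % M) (f t) := by
      unfold proj
      simp only [Nat.mod_mod]
    have h2 := hLIN a' b h0 (t, ⟨(ρ + i) % M, hlt⟩) (by
      rw [hpe] at hpi
      exact hpi)
    have h3 : a (t, ⟨(ρ + i) % M, hlt⟩) = 0 := (mul_eq_zero.1 h2).resolve_left hU0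
    have h4 := congrArg (fun q : F => q.coeff (L - i)) h3
    simp only [ha, Polynomial.finset_sum_coeff, Polynomial.coeff_zero] at h4
    rw [Finset.sum_eq_single i] at h4
    · rw [if_pos rfl, Polynomial.coeff_C_mul, Polynomial.coeff_X_pow, if_pos rfl, mul_one] at h4
      exact hci h4
    · intro i' _ hi'
      split_ifs
      · rw [Polynomial.coeff_C_mul, Polynomial.coeff_X_pow, if_neg, mul_zero]
        intro h5
        apply hi'
        have q1 := i.2
        have q2 := i'.2
        exact Fin.ext (by omega)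
      · rw [Polynomial.coeff_zero]
    · intro h5
      exact absurd (Finset.mem_univ _) h5
  have hdvd : (X : S) ^ (B + L + 1) ∣ ∑ j : J × Fin M, io (a' j) * proj M j.2 (f j.1) + io b := by
    rw [hlam, PowerSeries.X_pow_dvd_iff]
    intro m hm
    rw [map_add, show coeff m (io b) = coeff m (b : S) from rfl, Polynomial.coeff_coe, hb,
      PowerSeries.coeff_trunc]
    split_ifs with h2
    · exact (by decide : ∀ a : ZMod 2, a + a = 0) _
    · rw [add_zero]
      obtain ⟨n, rfl⟩ : ∃ n, m = n + M + L := ⟨m - M - L, by omega⟩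
      have e : g = l0 + X ^ M * l0 := by
        rw [hg, hU, map_add, map_one, map_pow, QE2.io_X]
        ring
      have e3 : n + M + L = (n + L) + M := by ring
      rw [e, map_add]
      conv_lhs =>
        congr
        · rw [hco]
        · rw [e3, PowerSeries.coeff_X_pow_mul, hco]
      rw [Nat.add_mod_right]
      split_ifs with h5
      · rw [hrun n (by omega) (by omega) h5, hrun (n + M) (by omega) (by omega)
          (by rw [Nat.add_mod_right]; exact h5)]
        exact (by decide : ∀ a : ZMod 2, a + a = 0) _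
      · rw [add_zero]
  have h3 := hC (A + M + L) a' b ha'd hbd hne _ hdvd
  have h4 : C * (A + M + L + 1) ≤ C * (M + 1) * (A + L + 1) := by
    rw [mul_assoc]
    refine Nat.mul_le_mul_left _ ?_
    nlinarith [Nat.zero_le (M * A), Nat.zero_le (M * L)]
  omega

end Pool.Agent.Y627.PT
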