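import Pool.Agent.Y627.PT.Gen

set_option autoImplicit false

/-!
# Joint patterns of dilates in progressions: the main theorem
-/

namespace Pool.Agent.Y627.PT

open PowerSeries Pool.Agent.TH693.PP Pool.Agent.TH693.QQ Pool.Agent.H397R2.PP

theorem sum_split (m K : ℕ) (hm : 0 < m) (H : ℕ → ZMod 2) :
    ∑ i0 ∈ Finset.range m, ∑ l ∈ Finset.range (K + 1), (if m * l + i0 < K then H (m * l + i0) else 0) =
      ∑ i ∈ Finset.range K, H i := by
  have h1 : ∀ i ∈ Finset.range K, H i = ∑ i0 ∈ Finset.range m, ∑ l ∈ Finset.range (K + 1),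
      (if m * l + i0 = i then H i else 0) := by
    intro i hi
    rw [Finset.mem_range] at hi
    have hdm := Nat.div_add_mod i m
    have hlt := Nat.mod_lt i hm
    rw [Finset.sum_eq_single (i % m), Finset.sum_eq_single (i / m)]
    · rw [if_pos hdm]
    · intro l _ hl
      rw [if_neg]
      intro h2
      apply hl
      have h3 : m * l = m * (i / m) := by omega
      exact Nat.eq_of_mul_eq_mul_left hm h3
    · intro h2
      exfalso
      apply h2
      rw [Finset.mem_range]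
      have := Nat.div_le_self i m
      omega
    · intro i0 hi0 hne
      rw [Finset.mem_range] at hi0
      refine Finset.sum_eq_zero fun l _ => ?_
      rw [if_neg]
      intro h2
      apply hne
      rw [← h2, Nat.mul_add_mod, Nat.mod_eq_of_lt hi0]
    · intro h2
      exact absurd (Finset.mem_range.2 hlt) h2
  symm
  rw [Finset.sum_congr rfl h1, Finset.sum_comm]
  refine Finset.sum_congr rfl fun i0 _ => ?_
  rw [Finset.sum_comm]
  refine Finset.sum_congr rfl fun l _ => ?_
  rw [Finset.sum_ite_eq]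
  simp only [Finset.mem_range]

theorem main {Y : Type} [Fintype Y] (G : Y → S) (τ : Y → ℤ) (hG : ∀ x, Sec (G x) (τ x))
    (m : Y → ℕ) (hm : ∀ x, 0 < m x) (h24 : ∀ x, ¬ (24 : ℤ) ∣ τ x)
    (hd : ∀ x y, x ≠ y → ¬ (24 : ℤ) ∣ τ x * (m y / Nat.gcd (m x) (m y) : ℕ) -
      τ y * (m x / Nat.gcd (m x) (m y) : ℕ)) (M : ℕ) (hM : 0 < M) :
    ∃ C : ℕ, ∀ (K : ℕ) (c : Y → ℕ → ZMod 2) (ρ : ℕ),
      (∃ x, ∃ i < K, c x i ≠ 0 ∧ proj (m x * M) (m x * ρ + i) (G x) ≠ 0) →
      ∀ (κ : ZMod 2) (A : ℕ), ∃ n, A ≤ n ∧ n ≤ C * (A + K) ∧ n % M = ρ % M ∧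
        ∑ x, ∑ i ∈ Finset.range K, c x i * coeff (m x * n + i) (G x) = κ := by
  classical
  set B : ℕ := ∏ x, m x with hB
  have hB0 : B ≠ 0 := Finset.prod_ne_zero_iff.2 fun x _ => (hm x).ne'
  have hmB : ∀ x, m x ∣ B := fun x => Finset.dvd_prod_of_mem m (Finset.mem_univ x)
  have hexp : ∀ j j' : (x : Y) × Fin (m x), (24 * m j.1 * m j'.1 : ℤ) ∣
      m j'.1 * (τ j.1 - 24 * (j.2 : ℕ)) - m j.1 * (τ j'.1 - 24 * (j'.2 : ℕ)) → j = j' := by
    rintro ⟨x, i⟩ ⟨y, i'⟩ h
    simp only at h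
    by_cases hxy : x = y
    · subst hxy
      obtain ⟨k, hk⟩ := h
      have hmz : (m x : ℤ) ≠ 0 := by exact_mod_cast (hm x).ne'
      have h1 : ((i' : ℕ) : ℤ) - (i : ℕ) = m x * k := by
        apply mul_left_cancel₀ (mul_ne_zero (by norm_num : (24 : ℤ) ≠ 0) hmz)
        linear_combination hk
      have h2 : k = 0 := by
        by_contra hne
        have h8 : 1 ≤ |k| := Int.one_le_abs hne
        have h9 : |((i' : ℕ) : ℤ) - (i : ℕ)| < m x := by
          have q1 := i.2
          have q2 := i'.2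
          rw [abs_lt]
          constructor <;> omega
        rw [h1, abs_mul, Nat.abs_cast] at h9
        nlinarith
      rw [h2, mul_zero] at h1
      have h3 : i = i' := Fin.ext (by omega)
      rw [h3]
    · exfalso
      apply hd x y hxy
      set g := Nat.gcd (m x) (m y) with hg
      have hg0 : 0 < g := Nat.gcd_pos_of_pos_left _ (hm x)
      obtain ⟨α, hα⟩ := Nat.gcd_dvd_left (m x) (m y)
      obtain ⟨β, hβ⟩ := Nat.gcd_dvd_right (m x) (m y)
      rw [← hg] at hα hβ
      have e1 : m x / g = α := by rw [hα, Nat.mul_div_cancel_left _ hg0]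
      have e2 : m y / g = β := by rw [hβ, Nat.mul_div_cancel_left _ hg0]
      rw [e1, e2]
      obtain ⟨k, hk⟩ := h
      have a1 : (m x : ℤ) = g * α := by exact_mod_cast hα
      have a2 : (m y : ℤ) = g * β := by exact_mod_cast hβ
      have hgz : (g : ℤ) ≠ 0 := by exact_mod_cast hg0.ne'
      rw [a1, a2] at hk
      have h1 : (β : ℤ) * (τ x - 24 * (i : ℕ)) - α * (τ y - 24 * (i' : ℕ)) =
          24 * (g * α * β * k) := by
        apply mul_left_cancel₀ hgz
        linear_combination hk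
      exact ⟨β * (i : ℕ) - α * (i' : ℕ) + g * α * β * k, by linear_combination h1⟩
  obtain ⟨C, hC⟩ := pat (fun j : (x : Y) × Fin (m x) => fn (G j.1) (m j.1) j.2) M hM
    (lfor_gen (fun j : (x : Y) × Fin (m x) => G j.1) (fun j => τ j.1) (fun j => hG j.1)
      (fun j => m j.1) (fun j => j.2) B M hB0 (fun j => hmB j.1) (fun j => j.2.2) hM)
    (lin_gen (fun j : (x : Y) × Fin (m x) => G j.1) (fun j => τ j.1) (fun j => hG j.1)
      (fun j => m j.1) (fun j => j.2) B M hB0 (fun j => hmB j.1) (fun j => j.2.2) hM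
      (fun j => h24 j.1) hexp)
  refine ⟨2 * C, fun K c ρ hc κ A => ?_⟩
  set c' : ((x : Y) × Fin (m x)) → Fin (K + 1) → ZMod 2 := fun j l =>
    if m j.1 * l + j.2 < K then c j.1 (m j.1 * l + j.2) else 0 with hc'
  have hK : 0 < K := by
    obtain ⟨_, i0, hi0, -⟩ := hc
    omega
  obtain ⟨n, h1, h2, h4, h5⟩ := hC K c' ρ (by
    obtain ⟨x, i0, hi0, hne, hpr⟩ := hc
    have hlt := Nat.mod_lt i0 (hm x)
    have hdm := Nat.div_add_mod i0 (m x)
    have hle := Nat.div_le_self i0 (m x)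
    refine ⟨⟨x, ⟨i0 % m x, hlt⟩⟩, ⟨i0 / m x, by omega⟩, ?_, ?_⟩
    · rw [hc']
      simp only
      rw [hdm, if_pos hi0]
      exact hne
    · simp only
      intro h0
      apply hpr
      obtain ⟨e, he⟩ := hmB x
      have he0 : e ≠ 0 := by rintro rfl; exact hB0 (by rw [he, mul_zero])
      have h6 := fn_rel (G x) (m x) (i0 % m x) e (ρ + i0 / m x) M B (by rw [he]; ring) hB0 he0 hlt
      rw [h0, map_zero, mul_zero] at h6
      have h7 := ex_inj e he0 ((map_zero (ex e he0)).trans h6)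
      have h8 : m x * (ρ + i0 / m x) + i0 % m x = m x * ρ + i0 := by rw [mul_add]; omega
      rw [h8] at h7
      exact h7.symm) κ A
  refine ⟨n, h1, ?_, h4, ?_⟩
  · refine h2.trans ?_
    have : C * (A + K + 1) ≤ C * (2 * (A + K)) := Nat.mul_le_mul_left _ (by omega)
    refine this.trans (le_of_eq ?_)
    ring
  · rw [← h5, Fintype.sum_sigma]
    refine Finset.sum_congr rfl fun x _ => ?_
    rw [← sum_split (m x) K (hm x) (fun i => c x i * coeff (m x * n + i) (G x)), Finset.sum_range]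
    refine Finset.sum_congr rfl fun i0 _ => ?_
    rw [Finset.sum_range]
    refine Finset.sum_congr rfl fun l _ => ?_
    rw [hc', fn, coeff_mk]
    simp only
    rw [show m x * (n + (l : ℕ)) + (i0 : ℕ) = m x * n + (m x * l + i0) by ring]
    split_ifs
    · rfl
    · rw [zero_mul]

end Pool.Agent.Y627.PT
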