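import Pool.Agent.Y627.PT.Bas
import Pool.Agent.Y627.PT.Hen
import Pool.Agent.TH693.QQ.QC

set_option autoImplicit false

/-!
# The transcendence measure of `Db`
-/

namespace Pool.Agent.Y627.PT

open PowerSeries Pool.Agent.TH693.PP Pool.Agent.TH693.QQ Pool.Agent.H397R2.PP

/-- transcendence measure of `D` -/
def MTof (D : S) : Prop := ∀ d : ℕ, ∃ C : ℕ, ∀ (h : ℕ) (Q : Polynomial F), Q ≠ 0 → Bd h d Q →
  ∀ N, (X : S) ^ N ∣ evp D Q → N ≤ C * (h + 1)

/-- algebraic over `F_2(X)` -/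
def Ncx (m c h : ℕ) (l : S) : Prop := Nc Db m (c * h) 0 l

theorem ncx_add (clo : S_CLO) {m c m' c' h : ℕ} {l l' : S} (h1 : Ncx m c h l) (h2 : Ncx m' c' h l') :
    Ncx (m * m') (m * m' * (c + c')) h (l + l') := by
  have := (clo _ _ _ _ _ _ _ _ _ h1 h2).1
  unfold Ncx
  convert this using 1
  · ring
  · simp

theorem ncx_mul (clo : S_CLO) {m c m' c' h : ℕ} {l l' : S} (h1 : Ncx m c h l) (h2 : Ncx m' c' h l') :
    Ncx (m * m') (m * m' * (c + c')) h (l * l') := by
  have := (clo _ _ _ _ _ _ _ _ _ h1 h2).2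
  unfold Ncx
  convert this using 1
  · ring
  · simp

theorem beta_nc (clo : S_CLO) (d : ℕ) : ∃ m c : ℕ, ∀ (h : ℕ) (a a3 : S), Ncx d 1 h a →
    Ncx d 3 h a3 → Ncx m c h ((a * a) * (a * a) + a * a3 + (a3 * a3) * (a3 * a3)) :=
  ⟨_, _, fun _ _ _ h1 h2 => ncx_add clo (ncx_add clo (ncx_mul clo (ncx_mul clo h1 h1)
    (ncx_mul clo h1 h1)) (ncx_mul clo h1 h2)) (ncx_mul clo (ncx_mul clo h2 h2) (ncx_mul clo h2 h2))⟩

theorem c3_io (f : F) : c3 (io f) = io (Polynomial.expand (ZMod 2) 3 f) := by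
  induction f using Polynomial.induction_on with
  | C a => rw [Polynomial.expand_C, QE2.io_C, AlgHom.commutes]
  | add p q hp hq => rw [map_add, map_add, map_add, map_add, hp, hq]
  | monomial n a _ =>
    simp only [map_mul, map_pow, QE2.io_X, QE2.io_C, c3_X, Polynomial.expand_C, Polynomial.expand_X,
      AlgHom.commutes]

theorem evp_c3 (a : S) (Q : Polynomial F) :
    evp (c3 a) (Q.map (Polynomial.expand (ZMod 2) 3 : F →ₐ[ZMod 2] F).toRingHom) = c3 (evp a Q) := by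
  unfold evp
  rw [Polynomial.coe_eval₂RingHom, Polynomial.coe_eval₂RingHom, Polynomial.eval₂_map]
  rw [show c3 (Polynomial.eval₂ io a Q) = c3.toRingHom (Polynomial.eval₂ io a Q) from rfl,
    Polynomial.hom_eval₂]
  congr 1
  exact RingHom.ext fun x => (c3_io x).symm

/-- the element `a ^ 4 + a a₃ + a₃ ^ 4` for `a = D + X ^ n v` -/
theorem beta_eq {n : ℕ} (hn : 2 ≤ n) {v : S} (hv : constantCoeff v ≠ 0) :
    ∃ w : S, constantCoeff w ≠ 0 ∧
      (Db + X ^ n * v) * (Db + X ^ n * v) * ((Db + X ^ n * v) * (Db + X ^ n * v)) +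
      (Db + X ^ n * v) * c3 (Db + X ^ n * v) +
      (c3 (Db + X ^ n * v) * c3 (Db + X ^ n * v)) * (c3 (Db + X ^ n * v) * c3 (Db + X ^ n * v)) =
      X ^ (n + 3) * w := by
  obtain ⟨j, rfl⟩ : ∃ j, n = j + 2 := ⟨n - 2, by omega⟩
  have hmod : Db ^ 4 = Db * c3 Db + c3 Db ^ 4 := Pool.Agent.H397R2.PP.modular_equation
  set u : S := E ^ 24 with hu
  have hD : Db = X * u := rfl
  have hu1 : constantCoeff u = 1 := by rw [hu, map_pow, constE, one_pow]
  have hD3 : c3 Db = X ^ 3 * c3 u := by rw [hD, map_mul, c3_X]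
  have hc : c3 (Db + X ^ (j + 2) * v) = c3 Db + X ^ (3 * (j + 2)) * c3 v := by
    rw [map_add, map_mul, map_pow, c3_X, ← pow_mul]
  refine ⟨v * c3 u + X ^ (3 * j + 3) * (v ^ 4 + v * c3 v) + X ^ (2 * j + 2) * (u * c3 v) +
    X ^ (11 * j + 19) * c3 v ^ 4, ?_, ?_⟩
  · have e1 : ∀ k : ℕ, ∀ a : S, constantCoeff (X ^ (k + 1) * a) = 0 := by
      intro k a
      rw [map_mul, map_pow, PowerSeries.constantCoeff_X, zero_pow (Nat.succ_ne_zero k), zero_mul]
    have e2 := e1 (3 * j + 2) (v ^ 4 + v * c3 v)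
    have e3 := e1 (2 * j + 1) (u * c3 v)
    have e4 := e1 (11 * j + 18) (c3 v ^ 4)
    rw [map_add, map_add, map_add, e2, e3, e4, map_mul, constc3, hu1, mul_one, add_zero, add_zero,
      add_zero]
    exact hv
  · rw [hc]
    have h4 := add_four Db (X ^ (j + 2) * v)
    have h5 := add_four (c3 Db) (X ^ (3 * (j + 2)) * c3 v)
    have l1 : (Db + X ^ (j + 2) * v) * (Db + X ^ (j + 2) * v) *
        ((Db + X ^ (j + 2) * v) * (Db + X ^ (j + 2) * v)) = Db ^ 4 + (X ^ (j + 2) * v) ^ 4 := by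
      rw [← h4]; ring
    have l2 : (c3 Db + X ^ (3 * (j + 2)) * c3 v) * (c3 Db + X ^ (3 * (j + 2)) * c3 v) *
        ((c3 Db + X ^ (3 * (j + 2)) * c3 v) * (c3 Db + X ^ (3 * (j + 2)) * c3 v)) =
        c3 Db ^ 4 + (X ^ (3 * (j + 2)) * c3 v) ^ 4 := by
      rw [← h5]; ring
    rw [l1, l2, hmod]
    have l3 : (Db + X ^ (j + 2) * v) * (c3 Db + X ^ (3 * (j + 2)) * c3 v) =
        Db * c3 Db + (X * u) * (X ^ (3 * (j + 2)) * c3 v) + X ^ (j + 2) * v * (X ^ 3 * c3 u) +
          X ^ (j + 2) * v * (X ^ (3 * (j + 2)) * c3 v) := by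
      rw [← hD, ← hD3]; ring
    rw [l3]
    linear_combination (Db * c3 Db + c3 Db ^ 4) * two_zero

theorem mt (clo : S_CLO) (sq : S_SQ) (val : S_VAL) : MTof Db := by
  intro d
  induction d using Nat.strong_induction_on with
  | _ d ih =>
  rcases Nat.eq_zero_or_pos d with rfl | hd
  · refine ⟨1, fun h Q hQ hb N hN => ?_⟩
    have h1 : In Db h 0 (evp Db Q) := ⟨Q, hb, rfl⟩
    have h2 : evp Db Q ≠ 0 := by
      rw [Polynomial.eq_C_of_natDegree_le_zero hb.1, QE2.evp_C]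
      intro h3
      apply hQ
      rw [Polynomial.eq_C_of_natDegree_le_zero hb.1]
      rw [QE2.io_inj (h3.trans (map_zero io).symm), map_zero]
    have := in_zero h1 h2 hN
    omega
  obtain ⟨e, rfl⟩ : ∃ e, d = e + 1 := ⟨d - 1, by omega⟩
  obtain ⟨C1, hC1⟩ := ih e (by omega)
  obtain ⟨C2, hC2⟩ := ih ((e + 1) / 2) (by omega)
  obtain ⟨m, c, hmc⟩ := beta_nc clo (e + 1)
  refine ⟨2 * C1 + 2 * C2 + c + 3, fun h Q hQ hb N hN => ?_⟩
  have hexp : (2 * C1 + 2 * C2 + c + 3) * (h + 1) =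
      2 * (C1 * (h + 1)) + 2 * (C2 * (h + 1)) + c * h + c + 3 * h + 3 := by ring
  by_cases hder : Polynomial.derivative Q = 0
  · obtain ⟨A, B, hA, hB, hne, hev⟩ := sq Q h (e + 1) hb hder
    rw [hev] at hN
    obtain ⟨v1, v2⟩ := val _ _ _ hN
    have hmono : C2 * (h / 2 + 1) ≤ C2 * (h + 1) := Nat.mul_le_mul_left _ (by omega)
    rcases hne hQ with h1 | h1
    · have := hC2 _ A h1 hA _ v1
      omega
    · have := hC2 _ B h1 hB _ v2
      omega
  · have hb' : Bd h e (Polynomial.derivative Q) := by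
      refine ⟨(Polynomial.natDegree_derivative_le Q).trans (by have := hb.1; omega), fun i => ?_⟩
      rw [Polynomial.coeff_derivative]
      refine Polynomial.natDegree_mul_le.trans ?_
      have h1 : ((i : F) + 1).natDegree = 0 := by
        have : ((i : F) + 1) = ((i + 1 : ℕ) : F) := by push_cast; rfl
        rw [this, Polynomial.natDegree_natCast]
      rw [h1, add_zero]
      exact hb.2 _
    have hne : evp Db (Polynomial.derivative Q) ≠ 0 := by
      intro h0
      have := hC1 h _ hder hb' (C1 * (h + 1) + 1) (by rw [h0]; exact dvd_zero _)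
      omega
    obtain ⟨m0, u, hu, hfac⟩ := fac hne
    have hm0 : m0 ≤ C1 * (h + 1) := hC1 h _ hder hb' m0 (by rw [hfac]; exact dvd_mul_right _ _)
    by_cases hN2 : N ≤ 2 * m0 + 1
    · omega
    have hN3 : 2 * m0 + 2 ≤ N := by omega
    obtain ⟨a, ha, hcl⟩ := hen (Q.map io) Db m0 N u
      (PowerSeries.isUnit_iff_constantCoeff.2 (isUnit_iff_ne_zero.2 hu)) (by omega)
      (by rw [← evp_eq]; exact hN) (by
        rw [Polynomial.derivative_map, ← evp_eq]; exact hfac)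
    rw [← evp_eq] at ha
    have hane : a - Db ≠ 0 := by
      intro h0
      have : a = Db := sub_eq_zero.1 h0
      rw [this] at ha
      exact QC.qc ⟨Q, hQ, ha⟩
    obtain ⟨n, v, hv, hfac2⟩ := fac hane
    rw [hfac2] at hcl
    have hn := le_of_fac hv hcl
    have ha2 : a = Db + X ^ n * v := by rw [← hfac2]; ring
    obtain ⟨w, hw, hbeta⟩ := beta_eq (by omega : 2 ≤ n) hv
    rw [← ha2] at hbeta
    have n1 : Ncx (e + 1) 1 h a := by
      have := nc_root Db hQ hb ha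
      unfold Ncx
      rw [one_mul]
      exact this
    have n2 : Ncx (e + 1) 3 h (c3 a) := by
      have hinj : Function.Injective (Polynomial.expand (ZMod 2) 3 : F →ₐ[ZMod 2] F).toRingHom :=
        Polynomial.expand_injective (by norm_num)
      refine nc_root Db (Q := Q.map (Polynomial.expand (ZMod 2) 3 : F →ₐ[ZMod 2] F).toRingHom)
        ((Polynomial.map_ne_zero_iff hinj).2 hQ)
        ⟨Polynomial.natDegree_map_le.trans hb.1, fun i => ?_⟩ ?_
      · rw [Polynomial.coeff_map]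
        change (Polynomial.expand (ZMod 2) 3 (Q.coeff i)).natDegree ≤ 3 * h
        rw [Polynomial.natDegree_expand]
        have := hb.2 i
        omega
      · rw [evp_c3, ha, map_zero]
    have n3 := hmc h a (c3 a) n1 n2
    have hb0 : X ^ (n + 3) * w ≠ 0 := by
      refine mul_ne_zero (pow_ne_zero _ X_ne) ?_
      rintro rfl
      exact hw (map_zero _)
    rw [hbeta] at n3
    obtain ⟨s, hs, hs0, hds⟩ := lio n3 hb0
    have := in_zero hs hs0 ((dvd_mul_right _ _).trans hds)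
    omega

end Pool.Agent.Y627.PT
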