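import Pool.Agent.Y627.PT.Lf
import Pool.Agent.Y627.PT.Stm2
import Pool.Agent.Y38.PT6.Clo
import Pool.Agent.Y38.PT6.Sq
import Pool.Agent.TH693.QQ.Main4
import Pool.Agent.TH693.QQ.QD1

set_option autoImplicit false

/-!
# Joint linear patterns of all multipartition functions modulo 2
-/

namespace Pool.Agent.Y627.PT

open PowerSeries Pool.Agent.TH693.PP Pool.Agent.TH693.QQ Pool.Agent.H397R2.PP

/-- the transcendence measure of `Db` -/
theorem mtDb : MTof Db := mt Pool.Agent.Y38.PT6.clo Pool.Agent.Y38.PT6.sq Pool.Agent.Y38.PT6.val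

theorem alx_proj (t M r : ℕ) (ht : Odd t) (hM : 0 < M) : ALX (proj M r (P ^ t)) t :=
  T4_main (t3 (t2 T1.t1)) qg1 (qd D1.qd1) t M r ht hM

theorem mem_of_alx {g : S} {e : ℕ} (h : ALX g e) :
    T5.jj g ∈ QE2.cl (ZMod 2) {T5.jj X, T5.jj Db} := by
  have hx0 : T5.jj X ≠ 0 := by
    rw [Ne, map_eq_zero_iff T5.jj T5.jj_inj]
    exact PowerSeries.X_ne_zero
  set om : Lk := T5.jj g ^ 24 * (T5.jj X ^ e)⁻¹ with hom
  have h4 : om ∈ QE2.cl (ZMod 2) {T5.jj Db} := by
    apply T5.mem_of_AL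
    rw [hom, T5.jj_X, ← div_eq_mul_inv, T5.jj_apply]
    exact h
  apply QE2.of_pow_mem (n := 24) (by norm_num)
  have h1 : T5.jj g ^ 24 = om * T5.jj X ^ e := by
    rw [hom, inv_mul_cancel_right₀ (pow_ne_zero _ hx0)]
  rw [h1]
  exact QE2.mul_mem' (QE2.cl_mono (by simp) h4) (QE2.pow_mem' (QE2.self_mem (by simp)) e)

theorem algOver_of_alx {g : S} {e : ℕ} (h : ALX g e) : AlgOver Db g :=
  T5.algOver_of_mem (mem_of_alx h)

theorem proj_one (r : ℕ) (f : S) : proj 1 r f = f := by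
  ext n
  unfold proj
  rw [coeff_mk, if_pos]
  omega

theorem alx_P : ALX P 1 := by
  have := alx_proj 1 1 0 odd_one one_pos
  rwa [proj_one, pow_one] at this

theorem P_ne : P ≠ 0 := by
  intro h
  have := constP
  rw [h, map_zero] at this
  exact zero_ne_one this

theorem P_trans : ¬ AlgX P := (t5 QC.qc 1 P (by norm_num) P_ne alx_P).2

theorem algOver_P_pow (t : ℕ) : AlgOver Db (P ^ t) := by
  apply T5.algOver_of_mem
  rw [map_pow]
  exact QE2.pow_mem' (mem_of_alx alx_P) t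

theorem joint (T : ℕ) : ∃ C : ℕ, ∀ (L : ℕ) (c : Fin T → Fin (L + 1) → ZMod 2), c ≠ 0 →
    ∀ (κ : ZMod 2) (A : ℕ), ∃ n, A ≤ n ∧ n ≤ C * (A + L + 1) ∧
      ∑ t : Fin T, ∑ i : Fin (L + 1), c t i * coeff (n + i) (P ^ ((t : ℕ) + 1)) = κ := by
  classical
  obtain ⟨C, hC⟩ := pat (fun t : Fin T => P ^ ((t : ℕ) + 1)) 1 one_pos
    (lf Pool.Agent.Y38.PT6.clo mtDb _ fun j => by
      rw [proj_one]
      exact algOver_P_pow _) (by
    intro a b h0 j _
    set G : Polynomial F := ∑ j : Fin T × Fin 1,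
      Polynomial.C (a j) * Polynomial.X ^ ((j.1 : ℕ) + 1) + Polynomial.C b with hG
    have h1 : evp P G = 0 := by
      rw [hG, map_add, map_sum, QE2.evp_C, ← h0]
      congr 1
      refine Finset.sum_congr rfl fun i _ => ?_
      rw [map_mul, map_pow, QE2.evp_C, QE2.evp_X, proj_one]
    have h2 : G = 0 := by
      by_contra hne
      exact P_trans ⟨G, hne, h1⟩
    have h3 := congrArg (fun g : Polynomial F => g.coeff ((j.1 : ℕ) + 1)) h2
    simp only [hG, Polynomial.coeff_add, Polynomial.finsetSum_coeff, Polynomial.coeff_C_mul,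
      Polynomial.coeff_X_pow, Polynomial.coeff_zero] at h3
    rw [Polynomial.coeff_C_succ, add_zero, Finset.sum_eq_single j] at h3
    · rwa [if_pos rfl, mul_one] at h3
    · intro i _ hij
      rw [if_neg, mul_zero]
      intro h4
      apply hij
      have h5 : i.1 = j.1 := Fin.ext (by omega)
      exact Prod.ext h5 (Subsingleton.elim _ _)
    · intro h4
      exact absurd (Finset.mem_univ _) h4)
  refine ⟨C, fun L c hc κ A => ?_⟩
  have hex : ∃ t i, c t i ≠ 0 ∧ proj 1 (0 + (i : Fin (L + 1))) (P ^ ((t : ℕ) + 1)) ≠ 0 := by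
    by_contra hcon
    push Not at hcon
    apply hc
    funext t i
    by_contra h1
    have := hcon t i h1
    rw [proj_one] at this
    exact pow_ne_zero _ P_ne this
  obtain ⟨n, h1, h2, -, h3⟩ := hC L c 0 hex κ A
  exact ⟨n, h1, h2, h3⟩

end Pool.Agent.Y627.PT
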