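import Pool.Agent.Y627.PT.Hk

set_option autoImplicit false

/-!
# Functions all of whose sections are `X ^ (s / 24)` times an algebraic function of `D`
-/

namespace Pool.Agent.Y627.PT

open PowerSeries Pool.Agent.TH693.PP Pool.Agent.TH693.QQ Pool.Agent.H397R2.PP
open Pool.Agent.Y517.PT (Om cl_map cl_comap Kc mem_Kc)

/-- the element `X` of `Lk` -/
noncomputable abbrev xx : Lk := T5.jj X

theorem xx_ne : xx ≠ 0 := by
  rw [Ne, map_eq_zero_iff T5.jj T5.jj_inj]
  exact PowerSeries.X_ne_zero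

/-- `f = X ^ (s / 24)` times a function algebraic over `F_2(D)` -/
def AZ (f : Lk) (s : ℤ) : Prop := f ^ 24 * xx ^ (-s) ∈ QE2.cl (ZMod 2) {T5.jj Db}

theorem az_of_alx {g : S} {s : ℕ} (h : ALX g s) : AZ (T5.jj g) s := by
  have h1 := T5.mem_of_AL h
  unfold AZ
  rw [zpow_neg, zpow_natCast, ← div_eq_mul_inv]
  rw [← T5.jj_X] at h1
  exact h1

theorem alx_of_az {g : S} {s : ℕ} (h : AZ (T5.jj g) s) : ALX g s := by
  unfold AZ at h
  rw [zpow_neg, zpow_natCast, ← div_eq_mul_inv, QE2.mem_cl] at h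
  unfold ALX AL
  rw [← T5.jj_X]
  exact h

theorem az_mul {f g : Lk} {s t : ℤ} (hf : AZ f s) (hg : AZ g t) : AZ (f * g) (s + t) := by
  have h := QE2.mul_mem' hf hg
  unfold AZ
  convert h using 1
  rw [mul_pow, neg_add, zpow_add₀ xx_ne]
  ring

theorem az_pow {f : Lk} {s : ℤ} (hf : AZ f s) (n : ℕ) : AZ (f ^ n) (n * s) := by
  have h := QE2.pow_mem' hf n
  unfold AZ
  convert h using 1
  rw [mul_pow, ← pow_mul, ← pow_mul, mul_comm n 24, ← zpow_natCast (xx ^ (-s)) n, ← zpow_mul]
  congr 2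
  ring

theorem az_x (s : ℕ) : AZ (xx ^ s) (24 * s) := by
  unfold AZ
  have h : (xx ^ s) ^ 24 * xx ^ (-(24 * (s : ℤ))) = 1 := by
    rw [← pow_mul, ← zpow_natCast, ← zpow_add₀ xx_ne]
    have : ((s * 24 : ℕ) : ℤ) + -(24 * (s : ℤ)) = 0 := by push_cast; ring
    rw [this, zpow_zero]
  rw [h]
  have := QE2.pow_mem' (QE2.self_mem (k := ZMod 2) (Set.mem_singleton (T5.jj Db))) 0
  rwa [pow_zero] at this

theorem az_cl {f : Lk} (hf : f ∈ QE2.cl (ZMod 2) {T5.jj Db}) : AZ f 0 := by
  unfold AZ
  rw [neg_zero, zpow_zero, mul_one]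
  exact QE2.pow_mem' hf 24

theorem az_const (a : kk) : AZ (algebraMap Sk Lk (C a)) 0 := az_cl (T5.mem_of_AL (T4.AL_const a))

/-- a root -/
theorem az_root {f : Lk} {s : ℤ} {n : ℕ} (hn : 0 < n) (h : AZ (f ^ n) (n * s)) : AZ f s := by
  unfold AZ at h ⊢
  apply QE2.of_pow_mem hn
  convert h using 1
  rw [mul_pow, ← pow_mul, ← pow_mul, mul_comm n 24, ← zpow_natCast (xx ^ (-s)) n, ← zpow_mul]
  congr 2
  ring

theorem az_add {f g : Lk} {s : ℤ} (hf : AZ f s) (hg : AZ g s) : AZ (f + g) s := by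
  obtain ⟨xi, hxi⟩ : ∃ xi : Om, xi ^ 24 = Pool.Agent.Y517.PT.e (T5.jj X) :=
    IsAlgClosed.exists_pow_nat_eq (Pool.Agent.Y517.PT.e (T5.jj X)) (by norm_num)
  have key : ∀ w : Lk, (Pool.Agent.Y517.PT.e w * xi ^ (-s)) ^ 24 =
      Pool.Agent.Y517.PT.e (w ^ 24 * xx ^ (-s)) := by
    intro w
    rw [mul_pow, map_mul, map_pow, map_zpow₀, ← hxi, ← zpow_natCast (xi ^ (-s)) 24, ← zpow_mul,
      ← zpow_natCast xi 24, ← zpow_mul, mul_comm (-s)]
  have h1 : ∀ w : Lk, AZ w s → Pool.Agent.Y517.PT.e w * xi ^ (-s) ∈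
      QE2.cl (ZMod 2) {Pool.Agent.Y517.PT.e (T5.jj Db)} := by
    intro w hw
    apply QE2.of_pow_mem (n := 24) (by norm_num)
    rw [key]
    exact cl_map _ hw
  have h2 : Pool.Agent.Y517.PT.e (f + g) * xi ^ (-s) ∈
      QE2.cl (ZMod 2) {Pool.Agent.Y517.PT.e (T5.jj Db)} := by
    rw [map_add, add_mul, ← mem_Kc]
    exact Subalgebra.add_mem _ (mem_Kc.2 (h1 f hf)) (mem_Kc.2 (h1 g hg))
  unfold AZ
  apply cl_comap Pool.Agent.Y517.PT.e
  rw [← key]
  exact QE2.pow_mem' h2 24

theorem az_zero (s : ℤ) : AZ 0 s := by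
  unfold AZ
  rw [zero_pow (by norm_num), zero_mul, ← mem_Kc]
  exact Subalgebra.zero_mem _

theorem az_sum {ι : Type} (A : Finset ι) (f : ι → Lk) (s : ℤ) (h : ∀ i ∈ A, AZ (f i) s) :
    AZ (∑ i ∈ A, f i) s := by
  classical
  induction A using Finset.induction_on with
  | empty => rw [Finset.sum_empty]; exact az_zero s
  | insert i A hi ih =>
    rw [Finset.sum_insert hi]
    exact az_add (h i (Finset.mem_insert_self i A))
      (ih fun j hj => h j (Finset.mem_insert_of_mem hj))

theorem exD_all {d : ℕ} (hd : d ≠ 0) : T5.jj (ex d hd Db) ∈ QE2.cl (ZMod 2) {T5.jj Db} := by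
  induction d using Nat.strong_induction_on with
  | _ d ih =>
  by_cases h1 : d = 1
  · subst h1
    rw [ex_one]
    exact QE2.self_mem (Set.mem_singleton _)
  · have hp := Nat.minFac_prime h1
    obtain ⟨e', he'⟩ := Nat.minFac_dvd d
    have he0 : e' ≠ 0 := by rintro rfl; rw [mul_zero] at he'; exact hd he'
    have hlt : e' < d := by
      rw [he']
      exact lt_mul_left (Nat.pos_of_ne_zero he0) hp.one_lt
    have h2 := cl_map (ph d.minFac hp.ne_zero) (ih e' hlt he0)
    have h3 : ∀ g : S, ph d.minFac hp.ne_zero (T5.jj g) = T5.jj (ex d.minFac hp.ne_zero g) := by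
      intro g
      rw [T5.jj_apply, ph_alg, ph0_ik, T5.jj_apply]
    rw [h3, h3, ex_ex _ _ d hp.ne_zero he0 hd he'] at h2
    refine QE2.cl_cl (t := {T5.jj Db}) ?_ h2
    intro x hx
    rw [Set.mem_singleton_iff] at hx
    rw [hx]
    by_cases h4 : d.minFac = 2
    · have h7 : ∀ (k : ℕ) (hk : k ≠ 0), k = 2 → ex k hk Db = Db ^ 2 := by
        rintro k hk rfl
        have h6 := pow_two_expand 1 Db
        have h8 : ex 2 hk Db = PowerSeries.expand (2 ^ 1) (by positivity) Db := rfl
        rw [h8, ← h6]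
        norm_num
      rw [h7 _ _ h4, map_pow]
      exact QE2.pow_mem' (QE2.self_mem (Set.mem_singleton _)) 2
    · exact exD_mem hp h4

theorem az_ex {d : ℕ} (hd : d ≠ 0) {g : S} {s : ℤ} (h : AZ (T5.jj g) s) :
    AZ (T5.jj (ex d hd g)) (d * s) := by
  have h2 := cl_map (ph d hd) h
  have h3 : ∀ g : S, ph d hd (T5.jj g) = T5.jj (ex d hd g) := by
    intro g
    rw [T5.jj_apply, ph_alg, ph0_ik, T5.jj_apply]
  rw [h3] at h2
  have h4 := QE2.cl_cl (t := {T5.jj Db}) (by
    intro x hx
    rw [Set.mem_singleton_iff] at hx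
    rw [hx]
    exact exD_all hd) h2
  unfold AZ
  convert h4 using 1
  have hX : ex d hd X = X ^ d := PowerSeries.expand_X d hd
  rw [map_mul, map_pow, map_zpow₀, h3, h3, hX, map_pow, ← zpow_natCast (T5.jj X) d, ← zpow_mul]
  congr 2
  ring

/-- all sections are of the type `AZ` -/
def Sec (g : S) (s : ℤ) : Prop := ∀ M r : ℕ, 0 < M → AZ (T5.jj (proj M r g)) s

theorem proj_add (M r : ℕ) (f g : S) : proj M r (f + g) = proj M r f + proj M r g := by
  ext n
  simp only [proj, coeff_mk, map_add]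
  split_ifs
  · rfl
  · rw [add_zero]

theorem proj_sum' {ι : Type} (M r : ℕ) (A : Finset ι) (f : ι → S) :
    proj M r (∑ i ∈ A, f i) = ∑ i ∈ A, proj M r (f i) := by
  classical
  induction A using Finset.induction_on with
  | empty =>
    rw [Finset.sum_empty, Finset.sum_empty]
    ext n
    simp [proj]
  | insert i A hi ih => rw [Finset.sum_insert hi, Finset.sum_insert hi, proj_add, ih]

theorem sum_proj (M : ℕ) (hM : 0 < M) (f : S) : ∑ a ∈ Finset.range M, proj M a f = f := by
  ext n
  rw [map_sum]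
  simp only [proj, coeff_mk]
  rw [Finset.sum_eq_single (n % M)]
  · rw [if_pos (Nat.mod_mod n M).symm]
  · intro a ha hne
    rw [Finset.mem_range] at ha
    rw [if_neg]
    intro h
    rw [Nat.mod_eq_of_lt ha] at h
    exact hne h.symm
  · intro h
    exact absurd (Finset.mem_range.2 (Nat.mod_lt n hM)) h

theorem proj_mul_proj (M r a b : ℕ) (f g : S) : proj M r (proj M a f * proj M b g) =
    if (a + b) % M = r % M then proj M a f * proj M b g else 0 := by
  ext n
  rw [proj, coeff_mk]
  have h1 : n % M ≠ (a + b) % M → coeff n (proj M a f * proj M b g) = 0 := by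
    intro hn
    rw [PowerSeries.coeff_mul]
    refine Finset.sum_eq_zero fun x hx => ?_
    rw [Finset.HasAntidiagonal.mem_antidiagonal] at hx
    simp only [proj, coeff_mk]
    by_cases h2 : x.1 % M = a % M
    · by_cases h3 : x.2 % M = b % M
      · exfalso
        apply hn
        rw [← hx]
        exact Nat.ModEq.add h2 h3
      · rw [if_neg h3, mul_zero]
    · rw [if_neg h2, zero_mul]
  split_ifs with h2 h3 h3
  · rfl
  · rw [map_zero]
    apply h1
    intro h4
    exact h3 (h4.symm.trans h2)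
  · symm
    apply h1
    intro h4
    exact h2 (h4.trans h3)
  · rw [map_zero]

theorem sec_mul {f g : S} {s t : ℤ} (hf : Sec f s) (hg : Sec g t) : Sec (f * g) (s + t) := by
  intro M r hM
  have h1 : proj M r (f * g) = ∑ a ∈ Finset.range M, ∑ b ∈ Finset.range M,
      (if (a + b) % M = r % M then proj M a f * proj M b g else 0) := by
    conv_lhs => rw [← sum_proj M hM f, ← sum_proj M hM g, Finset.sum_mul_sum]
    rw [proj_sum']
    refine Finset.sum_congr rfl fun a _ => ?_
    rw [proj_sum']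
    exact Finset.sum_congr rfl fun b _ => proj_mul_proj M r a b f g
  rw [h1, map_sum]
  refine az_sum _ _ _ fun a _ => ?_
  rw [map_sum]
  refine az_sum _ _ _ fun b _ => ?_
  split_ifs
  · rw [map_mul]
    exact az_mul (hf M a hM) (hg M b hM)
  · rw [map_zero]
    exact az_zero _

theorem sec_one : Sec 1 0 := by
  intro M r _
  have h1 : proj M r (1 : S) = if 0 % M = r % M then 1 else 0 := by
    ext n
    rw [proj, coeff_mk, PowerSeries.coeff_one]
    by_cases hn : n = 0
    · subst hn
      rw [if_pos rfl]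
      split_ifs
      · rw [PowerSeries.coeff_one, if_pos rfl]
      · rw [map_zero]
    · rw [if_neg hn]
      split_ifs
      · rw [PowerSeries.coeff_one, if_neg hn]
      · rw [map_zero]
      · rw [PowerSeries.coeff_one, if_neg hn]
      · rw [map_zero]
  rw [h1]
  split_ifs
  · rw [map_one]
    have := az_x 0
    rwa [pow_zero, Nat.cast_zero, mul_zero] at this
  · rw [map_zero]
    exact az_zero _

theorem sec_pow {f : S} {s : ℤ} (hf : Sec f s) (n : ℕ) : Sec (f ^ n) (n * s) := by
  induction n with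
  | zero =>
    rw [pow_zero, Nat.cast_zero, zero_mul]
    exact sec_one
  | succ n ih =>
    rw [pow_succ]
    have := sec_mul ih hf
    convert this using 1
    push_cast
    ring

theorem sec_prod {ι : Type} (A : Finset ι) (f : ι → S) (s : ι → ℤ) (h : ∀ i ∈ A, Sec (f i) (s i)) :
    Sec (∏ i ∈ A, f i) (∑ i ∈ A, s i) := by
  classical
  induction A using Finset.induction_on with
  | empty => rw [Finset.prod_empty, Finset.sum_empty]; exact sec_one
  | insert i A hi ih =>
    rw [Finset.prod_insert hi, Finset.sum_insert hi]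
    exact sec_mul (h i (Finset.mem_insert_self i A))
      (ih fun j hj => h j (Finset.mem_insert_of_mem hj))

theorem sec_ex {g : S} {s : ℤ} (hg : Sec g s) {d : ℕ} (hd : d ≠ 0) : Sec (ex d hd g) (d * s) := by
  intro M r hM
  have hd' : 0 < d := Nat.pos_of_ne_zero hd
  have h1 : proj M r (ex d hd g) =
      ∑ a ∈ Finset.range M, if (d * a) % M = r % M then ex d hd (proj M a g) else 0 := by
    conv_lhs => rw [← sum_proj M hM g, map_sum, proj_sum']
    refine Finset.sum_congr rfl fun a _ => ?_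
    ext n
    have h2 : ∀ x : ℕ, n = d * x → coeff n (ex d hd (proj M a g)) =
        if x % M = a % M then coeff x g else 0 := by
      rintro x rfl
      unfold ex
      rw [PowerSeries.coeff_expand_mul, proj, coeff_mk]
    have h3 : ¬ d ∣ n → coeff n (ex d hd (proj M a g)) = 0 := by
      intro h
      unfold ex
      rw [PowerSeries.coeff_expand, if_neg h]
    rw [show coeff n (proj M r (ex d hd (proj M a g))) =
      if n % M = r % M then coeff n (ex d hd (proj M a g)) else 0 from by rw [proj, coeff_mk]]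
    by_cases h4 : d ∣ n
    · obtain ⟨x, hx⟩ := h4
      rw [apply_ite (coeff n), map_zero, h2 x hx]
      by_cases h5 : x % M = a % M
      · have h6 : n % M = (d * a) % M := by
          rw [hx]
          exact Nat.ModEq.mul_left d h5
        rw [h6]
      · rw [if_neg h5]
        simp
    · rw [apply_ite (coeff n), map_zero, h3 h4]
      simp
  rw [h1, map_sum]
  refine az_sum _ _ _ fun a _ => ?_
  split_ifs
  · exact az_ex hd (hg M a hM)
  · rw [map_zero]
    exact az_zero _

theorem sec_P : Sec P 1 := by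
  intro M r hM
  have := az_of_alx (alx_proj 1 M r odd_one hM)
  rwa [pow_one, Nat.cast_one] at this

end Pool.Agent.Y627.PT
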