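import Pool.Agent.Y627.PT.Sec

set_option autoImplicit false

/-!
# The sections of `∏ (1 - X ^ n)`
-/

namespace Pool.Agent.Y627.PT

open PowerSeries Pool.Agent.TH693.PP Pool.Agent.TH693.QQ Pool.Agent.H397R2.PP

theorem fi_D_mem {m : ℕ} (hm : Odd m) {u : kk} (hu : u ^ m = 1) : AL (T4.fi u Db) :=
  (t3 (t2 T1.t1)) m hm u hu

theorem al_mem {f : Lk} (h : AL f) : f ∈ QE2.cl (ZMod 2) {T5.jj Db} := T5.mem_of_AL h

theorem azU_P {t : ℕ} (ht : Odd t) (k r : ℕ) {m : ℕ} (hm : Odd m) {u : kk} (hu : u ^ m = 1) :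
    AZ (T4.fi u (proj (2 ^ k) r (P ^ t))) t := by
  have hu0 : u ≠ 0 := by
    rintro rfl
    rw [zero_pow (by rintro rfl; exact absurd hm (by decide))] at hu
    exact zero_ne_one hu
  obtain ⟨e, s, hs, hs3, hrel⟩ := qg1 t k r ht
  set c2 := proj (2 ^ k) r (P ^ t) with hc2
  set w := proj (2 ^ (k + 3)) (8 * r + s) (Db ^ s) with hw
  have h1 := congrArg (T4.fi u) hrel
  rw [map_mul, map_pow, map_pow, map_mul, map_pow, map_pow, T4.fi_X, mul_pow, ← T5.jj_X] at h1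
  have hD0 : Db ≠ 0 := by
    have : Db = X * E ^ 24 := rfl
    rw [this]
    refine mul_ne_zero X_ne (pow_ne_zero _ ?_)
    intro h
    have h2 := constE
    rw [h, map_zero] at h2
    exact zero_ne_one h2
  have hD : T4.fi u Db ^ e ≠ 0 := by
    apply pow_ne_zero
    rw [Ne, map_eq_zero_iff _ (T4.fi_inj _ hu0)]
    exact hD0
  have h2 : T4.fi u c2 ^ 24 * xx ^ (-(t : ℤ)) =
      (algebraMap Sk Lk (C u) ^ t * T4.fi u w ^ 3) * (T4.fi u Db ^ e)⁻¹ := by
    rw [zpow_neg, zpow_natCast]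
    have h3 := pow_ne_zero t xx_ne
    field_simp
    rw [mul_comm]
    linear_combination h1
  unfold AZ
  rw [h2]
  exact QE2.mul_mem' (QE2.mul_mem' (QE2.pow_mem' (al_mem (T4.AL_const u)) t)
    (QE2.pow_mem' (al_mem (T4.AL_int u (fi_D_mem hm hu) w (qd D1.qd1 _ _ _))) 3))
    (QE2.inv_mem' (QE2.pow_mem' (al_mem (fi_D_mem hm hu)) e))

theorem azU_E0 {m : ℕ} (hm : Odd m) {u : kk} (hu : u ^ m = 1) : AZ (T4.fi u E) (-1) := by
  have hu0 : u ≠ 0 := by
    rintro rfl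
    rw [zero_pow (by rintro rfl; exact absurd hm (by decide))] at hu
    exact zero_ne_one hu
  have hD : Db = X * E ^ 24 := rfl
  have h1 := congrArg (T4.fi u) hD
  rw [map_mul, map_pow, T4.fi_X, ← T5.jj_X] at h1
  have hc : algebraMap Sk Lk (C u) ≠ 0 := by
    rw [Ne, map_eq_zero_iff _ (IsFractionRing.injective Sk Lk)]
    intro h
    apply hu0
    have := congrArg constantCoeff h
    rwa [PowerSeries.constantCoeff_C, map_zero] at this
  unfold AZ
  have h2 : T4.fi u E ^ 24 * xx ^ (-(-1 : ℤ)) = (algebraMap Sk Lk (C u))⁻¹ * T4.fi u Db := by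
    rw [neg_neg, zpow_one, h1]
    field_simp
  rw [h2]
  exact QE2.mul_mem' (QE2.inv_mem' (al_mem (T4.AL_const u))) (al_mem (fi_D_mem hm hu))

theorem proj_mul_left (q r : ℕ) (hq : 0 < q) (A f : S) (hA : proj q 0 A = A) :
    proj q r (A * f) = A * proj q r f := by
  conv_lhs => rw [← hA, ← sum_proj q hq f, Finset.mul_sum, proj_sum']
  rw [Finset.sum_congr rfl fun b _ => proj_mul_proj q r 0 b A f]
  rw [Finset.sum_eq_single (r % q)]
  · rw [zero_add, Nat.mod_mod, if_pos rfl, hA]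
    congr 1
    unfold proj
    simp only [Nat.mod_mod]
  · intro b hb hne
    rw [Finset.mem_range] at hb
    rw [if_neg]
    intro h
    rw [zero_add, Nat.mod_eq_of_lt hb] at h
    exact hne h
  · intro h
    exact absurd (Finset.mem_range.2 (Nat.mod_lt r hq)) h

theorem azU_E (k r : ℕ) {m : ℕ} (hm : Odd m) {u : kk} (hu : u ^ m = 1) :
    AZ (T4.fi u (proj (2 ^ k) r E)) (-1) := by
  obtain ⟨t, ht⟩ : ∃ t, 2 ^ (k + 1) = t + 1 := ⟨2 ^ (k + 1) - 1, by
    have : 0 < 2 ^ (k + 1) := by positivity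
    omega⟩
  have hto : Odd t := by
    rw [← Nat.not_even_iff_odd]
    rintro ⟨c, hc⟩
    rw [pow_succ] at ht
    omega
  have hE : E = E ^ 2 ^ (k + 1) * P ^ t := by
    have h1 : (E * P) ^ t = 1 := by rw [mul_comm, P_mul_E, one_pow]
    rw [ht, pow_succ, mul_pow] at *
    linear_combination -E * h1
  have hA : proj (2 ^ k) 0 (E ^ 2 ^ (k + 1)) = E ^ 2 ^ (k + 1) := by
    have h1 : E ^ 2 ^ (k + 1) = PowerSeries.expand (2 ^ k) (by positivity) (E ^ 2) := by
      rw [← pow_two_expand, ← pow_mul, pow_succ, mul_comm]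
    rw [h1]
    ext n
    rw [proj, coeff_mk, PowerSeries.coeff_expand]
    by_cases h2 : 2 ^ k ∣ n
    · rw [if_pos h2, Nat.zero_mod, if_pos (Nat.mod_eq_zero_of_dvd h2)]
    · rw [if_neg h2]
      simp
  have h2 : proj (2 ^ k) r E = E ^ 2 ^ (k + 1) * proj (2 ^ k) r (P ^ t) := by
    conv_lhs => rw [hE]
    exact proj_mul_left (2 ^ k) r (by positivity) _ _ hA
  rw [h2, map_mul, map_pow]
  have h3 := az_mul (az_pow (azU_E0 hm hu) (2 ^ (k + 1))) (azU_P hto k r hm hu)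
  convert h3 using 1
  rw [ht]
  push_cast
  ring

theorem sec_E : Sec E (-1) := by
  intro M r hM
  obtain ⟨k, m, hm, rfl⟩ := Nat.exists_eq_two_pow_mul_odd hM.ne'
  have hne : NeZero ((m : ℕ) : ZMod 2) := ⟨by
    rw [Ne, ZMod.natCast_eq_zero_iff]
    exact fun h => (Nat.not_even_iff_odd.2 hm) (even_iff_two_dvd.2 h)⟩
  obtain ⟨z, hz⟩ := HasEnoughRootsOfUnity.exists_primitiveRoot kk m
  have hzi : ∀ i, (z ^ i) ^ m = 1 := fun i => by
    rw [← pow_mul, mul_comm, pow_mul, hz.pow_eq_one, one_pow]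
  rw [T5.jj_apply, T4.proj_sum k m r hm z hz E, map_sum]
  refine az_sum _ _ _ fun i _ => ?_
  rw [map_mul, ← T4.fi_apply]
  have := az_mul (az_const (((z ^ i) ^ r)⁻¹)) (azU_E k r hm (hzi i))
  rwa [zero_add] at this

end Pool.Agent.Y627.PT
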