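import Pool.Agent.TH693.QQ.Stm3

set_option autoImplicit false

/-!
# Transcendence measures of the partition generating function modulo 2: statements of the tasks

`S = F_2[[X]]`, `F = F_2[X]`, `evp D G = G(X, D)` for `G : Polynomial F`.
-/

namespace Pool.Agent.Y627.PT

open PowerSeries Pool.Agent.TH693.PP Pool.Agent.TH693.QQ Pool.Agent.H397R2.PP

/-- `G(X, Y)` has degree `≤ h` in `X` and `≤ k` in `Y` -/
def Bd (h k : ℕ) (G : Polynomial F) : Prop := G.natDegree ≤ k ∧ ∀ i, (G.coeff i).natDegree ≤ h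

/-- `s` is a value `G(X, D)`, `G` of degree `≤ h` in `X` and `≤ k` in `Y` -/
def In (D : S) (h k : ℕ) (s : S) : Prop := ∃ G, Bd h k G ∧ evp D G = s

/-- `l` is a root of a nonzero polynomial of degree `≤ m` with coefficients in `In D h k` -/
def Nc (D : S) (m h k : ℕ) (l : S) : Prop :=
  ∃ p : Polynomial S, p ≠ 0 ∧ p.natDegree ≤ m ∧ (∀ i, In D h k (p.coeff i)) ∧ p.eval l = 0

/-- task CLO: sums and products -/
def S_CLO : Prop := ∀ (D l l' : S) (m h k m' h' k' : ℕ), Nc D m h k l → Nc D m' h' k' l' →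
  Nc D (m * m') (m * m' * (h + h')) (m * m' * (k + k')) (l + l') ∧
  Nc D (m * m') (m * m' * (h + h')) (m * m' * (k + k')) (l * l')

/-- task SQ: polynomials in `Y ^ 2` -/
def S_SQ : Prop := ∀ (Q : Polynomial F) (h d : ℕ), Bd h d Q → Polynomial.derivative Q = 0 →
  ∃ A B : Polynomial F, Bd (h / 2) (d / 2) A ∧ Bd (h / 2) (d / 2) B ∧ (Q ≠ 0 → A ≠ 0 ∨ B ≠ 0) ∧
    ∀ z : S, evp z Q = evp z A ^ 2 + X * evp z B ^ 2

/-- task VAL -/
def S_VAL : Prop := ∀ (a b : S) (N : ℕ), (X : S) ^ N ∣ a ^ 2 + X * b ^ 2 →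
  (X : S) ^ (N / 2) ∣ a ∧ (X : S) ^ ((N - 1) / 2) ∣ b

/-- task LIN: linear independence of sections over `F_2(X)` -/
def S_LIN : Prop :=
  (∀ t M r : ℕ, Odd t → 0 < M →
    AL (algebraMap Sk Lk (ik (proj M r (P ^ t))) ^ 24 / algebraMap Sk Lk X ^ t)) →
  ¬ AlgX Db →
  ∀ (J : Type) [Fintype J] (t r : J → ℕ) (M : ℕ), 0 < M → (∀ j, Odd (t j)) →
    (∀ i j, t i % 24 = t j % 24 → t i = t j) →
    (∀ i j, t i = t j → r i % M = r j % M → i = j) →
    ∀ (a : J → F) (b : F), ∑ j, (a j : S) * proj M (r j) (P ^ t j) + (b : S) = 0 →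
      ∀ j, proj M (r j) (P ^ t j) ≠ 0 → a j = 0

end Pool.Agent.Y627.PT
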